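import Pool.Agent.Helper1.TP.TopNum

/-!
# Project FS (MP_75608d_al), top levels: choice of the constants
-/

set_option autoImplicit false

namespace Pool.Agent.Helper1.TP

open Real Filter

theorem ev_log (M : ℝ) : ∀ᶠ n : ℕ in atTop, M * (log n) ^ 3 ≤ (n : ℝ) ^ (1 / 2 : ℝ) := by
  have h1 : Tendsto (fun x : ℝ => (log x) ^ (3 : ℝ) / x ^ (1 / 2 : ℝ)) atTop (nhds 0) :=
    (isLittleO_log_rpow_rpow_atTop 3 (show (0 : ℝ) < 1 / 2 by norm_num)).tendsto_div_nhds_zero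
  have h2 := (h1.comp tendsto_natCast_atTop_atTop).const_mul |M|
  rw [mul_zero] at h2
  have h3 : ∀ᶠ n : ℕ in atTop, |M| * ((log n) ^ (3 : ℝ) / (n : ℝ) ^ (1 / 2 : ℝ)) < 1 :=
    h2.eventually_lt_const one_pos
  filter_upwards [h3, eventually_ge_atTop 1] with n h4 hn
  have hn0 : (0 : ℝ) < n := by exact_mod_cast hn
  have hn1 : (1 : ℝ) ≤ n := by exact_mod_cast hn
  have h5 : (0 : ℝ) < (n : ℝ) ^ (1 / 2 : ℝ) := by positivity
  have h6 : (log n) ^ (3 : ℝ) = (log n) ^ 3 := by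
    rw [← rpow_natCast]
    norm_num
  rw [h6, ← mul_div_assoc, div_lt_one h5] at h4
  have h7 : 0 ≤ (log (n : ℝ)) ^ 3 := pow_nonneg (log_nonneg hn1) 3
  exact (mul_le_mul_of_nonneg_right (le_abs_self M) h7).trans h4.le

end Pool.Agent.Helper1.TP
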