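import Pool.Agent.Helper13.FS.StageC
import Pool.Agent.Helper4.FS.Det

/-!
# Project FS (MP_75608d_al), final step: definitions

`Z` are the old letters acting on `Fin n`, `y : World q n` the fresh permutations. The schedule has
`N` rounds, a round consists of `t1` word slots (old letters with the weights `S0`) and one letter
slot (lazy with probability `lz`, otherwise a uniform signed fresh letter). The path of a letter
sequence is described by helper4's programs: round `v` applies the word `aof v` (half step `2 v`) and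
then the letter `gof v` (half step `2 v + 1`).
-/

set_option autoImplicit false

namespace Pool.Agent.Helper1.TP

open Finset Pool.Agent.Helper35.MP Pool.Agent.Helper13.FS
open Pool.Agent.Helper4.FS (World Lt Stp prog Uses)

variable {q n s : ℕ} {LZ : Type} [Fintype LZ] [DecidableEq LZ]

/-- the old letters together with the fresh ones -/
def comb (Z : Letters (Fin n) LZ) (y : World q n) : Letters (Fin n) (LZ ⊕ Lt q) where
  act := Sum.elim Z.act (Pool.Agent.Helper4.FS.lp y)
  inv := Sum.map Z.inv (fun m => (m.1, !m.2))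
  inv_inv := by
    rintro (l | ⟨j, b⟩)
    · simp [Z.inv_inv]
    · simp
  act_inv := by
    rintro (l | ⟨j, b⟩)
    · exact Z.act_inv l
    · cases b <;> simp [Pool.Agent.Helper4.FS.lp]
  e := Sum.inl Z.e
  act_e := Z.act_e

/-- weights of a word slot -/
def wz (q : ℕ) (S0 : LZ → ℝ) : LZ ⊕ Lt q → ℝ := Sum.elim S0 (fun _ => 0)

/-- weights of a letter slot, lazy with probability `lz` -/
noncomputable def wy (q : ℕ) (Z : Letters (Fin n) LZ) (lz : ℝ) : LZ ⊕ Lt q → ℝ :=
  Sum.elim (fun l => if l = Z.e then lz else 0) (fun _ => (1 - lz) / (2 * q))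

/-- weights of one step of the walk with the old and the fresh letters -/
noncomputable def wa (q : ℕ) (Z : Letters (Fin n) LZ) (lz : ℝ) (S0 : LZ → ℝ) : LZ ⊕ Lt q → ℝ :=
  fun l => (wz q S0 l + wy q Z lz l) / 2

/-- number of slots -/
abbrev MM (t1 N : ℕ) : ℕ := N * (t1 + 1)

/-- the schedule -/
noncomputable def sch (q : ℕ) (Z : Letters (Fin n) LZ) (lz : ℝ) (S0 : LZ → ℝ) (t1 N : ℕ) :
    Fin (MM t1 N) → LZ ⊕ Lt q → ℝ :=
  fun k => if (k : ℕ) % (t1 + 1) = t1 then wy q Z lz else wz q S0

/-- the letter slots -/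
def Jy (t1 N : ℕ) : Fin (MM t1 N) → Bool := fun k => decide ((k : ℕ) % (t1 + 1) = t1)

/-- letter sequences as functions on all slots -/
def ext {M : ℕ} (Z : Letters (Fin n) LZ) (ls : Fin M → LZ ⊕ Lt q) (i : ℕ) : LZ ⊕ Lt q :=
  if h : i < M then ls ⟨i, h⟩ else Sum.inl Z.e

/-- the permutation of a letter in a word slot -/
def zact (Z : Letters (Fin n) LZ) : LZ ⊕ Lt q → Equiv.Perm (Fin n) := Sum.elim Z.act (fun _ => 1)

/-- the word of the letters `f 0, …, f (i-1)`, the first letter acts first -/
def zprod (Z : Letters (Fin n) LZ) (f : ℕ → LZ ⊕ Lt q) : ℕ → Equiv.Perm (Fin n)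
  | 0 => 1
  | i + 1 => zact Z (f i) * zprod Z f i

/-- the fresh letter of round `v` -/
def gof (Z : Letters (Fin n) LZ) (t1 : ℕ) {M : ℕ} (ls : Fin M → LZ ⊕ Lt q) (v : ℕ) :
    Option (Lt q) :=
  Sum.elim (fun _ => none) some (ext Z ls (v * (t1 + 1) + t1))

/-- the word of round `v` -/
def aof (Z : Letters (Fin n) LZ) (t1 : ℕ) {M : ℕ} (ls : Fin M → LZ ⊕ Lt q) (v : ℕ) :
    Equiv.Perm (Fin n) :=
  zprod Z (fun i => ext Z ls (v * (t1 + 1) + i)) t1

/-- the position after `t` half steps, from `p` -/
def hp (y : World q n) (a : ℕ → Equiv.Perm (Fin n)) (g : ℕ → Option (Lt q)) (t : ℕ)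
    (p : Fin n) : Fin n := Pool.Agent.Helper4.FS.pos (prog a g) y 0 p t

/-- number of the rounds `< N` with a fresh letter -/
def nl (g : ℕ → Option (Lt q)) (N : ℕ) : ℕ := ((range N).filter fun v => g v ≠ none).card

/-- every increasing matching of equal fresh letters without fixed points has at most `P`
elements -/
def NoShift (g : ℕ → Option (Lt q)) (N P : ℕ) : Prop :=
  ∀ (I : Finset ℕ) (φ : ℕ → ℕ), I ⊆ range N → StrictMonoOn φ I →
    (∀ v ∈ I, φ v < N ∧ φ v ≠ v ∧ g v ≠ none ∧ g (φ v) = g v) → I.card ≤ P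

/-- the edges crossed by the paths from the points `x l` in `N` rounds -/
def crossed (y : World q n) (a : ℕ → Equiv.Perm (Fin n)) (g : ℕ → Option (Lt q)) (N : ℕ)
    (x : Fin s → Fin n) : Set (Fin q × Fin n) :=
  {e | ∃ l, Uses (prog a g) y 0 (x l) (2 * N) e}

/-- all but `F` of the crossings are crossings of distinct edges -/
def Fresh (y : World q n) (a : ℕ → Equiv.Perm (Fin n)) (g : ℕ → Option (Lt q)) (N F : ℕ)
    (x : Fin s → Fin n) : Prop :=
  s * nl g N ≤ (crossed y a g N x).ncard + F

/-- the two paths end at the same points -/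
def Closed (y : World q n) (a b : ℕ → Equiv.Perm (Fin n)) (g : ℕ → Option (Lt q)) (N : ℕ)
    (x : Fin s → Fin n) : Prop := ∀ l, hp y a g (2 * N) (x l) = hp y b g (2 * N) (x l)

/-- the number of pairs (token, round with a fresh letter) such that the two paths are at different
places before the letter -/
def nsplit (y : World q n) (a b : ℕ → Equiv.Perm (Fin n)) (g : ℕ → Option (Lt q)) (N : ℕ)
    (x : Fin s → Fin n) : ℕ :=
  ((univ ×ˢ range N).filter fun lv : Fin s × ℕ => g lv.2 ≠ none ∧
    hp y a g (2 * lv.2 + 1) (x lv.1) ≠ hp y b g (2 * lv.2 + 1) (x lv.1)).card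

/-- the places visited in the rounds `< v` (after at least one half step) -/
def vis (y : World q n) (a : ℕ → Equiv.Perm (Fin n)) (g : ℕ → Option (Lt q)) (v : ℕ)
    (x : Fin s → Fin n) : Finset (Fin n) :=
  ((univ : Finset (Fin s)) ×ˢ Icc 1 (2 * v)).image fun lt => hp y a g lt.2 (x lt.1)

/-- round `v` is confined: at least `c` of the `s` paths are at visited places before the letter of
the round -/
def Conf (y : World q n) (a : ℕ → Equiv.Perm (Fin n)) (g : ℕ → Option (Lt q)) (v c : ℕ)
    (x : Fin s → Fin n) : Prop :=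
  c ≤ ((univ : Finset (Fin s)).filter fun l => hp y a g (2 * v + 1) (x l) ∈ vis y a g v x).card

open Classical in
/-- at most `B` of the `N` rounds are confined -/
def Unc (y : World q n) (a : ℕ → Equiv.Perm (Fin n)) (g : ℕ → Option (Lt q)) (N c B : ℕ)
    (x : Fin s → Fin n) : Prop :=
  ((range N).filter fun v => Conf y a g v c x).card ≤ B

/-- the path event imposed on both sides -/
def GG (Z : Letters (Fin n) LZ) (y : World q n) (t1 N c B : ℕ) (x : Fin s ↪ Fin n)
    (ls : Fin (MM t1 N) → LZ ⊕ Lt q) : Prop := Unc y (aof Z t1 ls) (gof Z t1 ls) N c B x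

/-- the bad patterns: fewer than `N0` fresh letters or a long shifted matching -/
def BadP (Z : Letters (Fin n) LZ) (t1 N N0 P : ℕ) (ls : Fin (MM t1 N) → LZ ⊕ Lt q) : Prop :=
  ¬ (N0 ≤ nl (gof Z t1 ls) N ∧ NoShift (gof Z t1 ls) N P)

end Pool.Agent.Helper1.TP
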