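import Pool.Agent.Helper1.TP.Defs
import Pool.Agent.Helper13.FS.StageF

/-!
# Project FS (MP_75608d_al), final step: goals in block form

Words `a b : ℕ → Perm (Fin n)`, pattern `g : ℕ → Option (Lt q)`, `N` rounds (round `v`: word `a v`,
then the letter `g v`), `s` tokens `x : Fin s → Fin n`, worlds `y : World q n`. The places after `t`
half steps are `hp y a g t p` (`hp 0` = start, `hp (2 v + 1)` = before the letter of round `v`,
`hp (2 v + 2)` = after it).
-/

set_option autoImplicit false

namespace Pool.Agent.Helper1.TP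

open Finset
open Pool.Agent.Helper4.FS (World Lt Stp prog Uses)

variable {q n s : ℕ}

/-- words of `N` rounds extended by `1` -/
def extW {N : ℕ} (A : Fin N → Equiv.Perm (Fin n)) (v : ℕ) : Equiv.Perm (Fin n) :=
  if h : v < N then A ⟨v, h⟩ else 1

/-- patterns of `N` rounds extended by `none` -/
def extG {N : ℕ} (g : Fin N → Option (Lt q)) (v : ℕ) : Option (Lt q) :=
  if h : v < N then g ⟨v, h⟩ else none

/-- number of places where two permutations agree -/
def agr (a b : Equiv.Perm (Fin n)) : ℕ := (univ.filter fun h => a h = b h).card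

open Classical in
/-- rounds with a fresh letter which are not followed by a round with a fresh letter and with words
agreeing at most at `f` places -/
noncomputable def badR (a b : ℕ → Equiv.Perm (Fin n)) (g : ℕ → Option (Lt q)) (N f : ℕ) :
    Finset ℕ :=
  (range N).filter fun v => g v ≠ none ∧
    ¬ (v + 1 < N ∧ g (v + 1) ≠ none ∧ agr (a (v + 1)) (b (v + 1)) ≤ f)

/-- FCL, the closing lemma (helper46). Fixed words, fixed pattern, any start. Proof: keep the split
pairs (token `l`, round `v`) whose edge is crossed by the `a`-paths only at `(l, v)` and by the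
`b`-paths at most once: more than `s * P + J * nl` of them. Token `l` PAYS if for one of its kept
edges `e` there are half-step times `μ ≥ 2 v + 2` and `μ'` with equal places of its `a`-path at `μ`
and of its `b`-path at `μ'`, such that its `b`-path does not cross `e` in its first `μ'` half steps.
A token that does not pay matches its kept rounds `v` with rounds `σ v ≠ v` of its `b`-path, same
letter, `σ` increasing, so it has at most `P` kept rounds. So more than `J` tokens pay; one may
select `J / 3` of them such that none crosses the chosen edge of another one, and exchange the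
images of the tails of the chosen edges with the images of uncrossed tails. -/
def S_FCL (C : ℝ) : Prop := ∀ (q n N s F P J : ℕ) (g : ℕ → Option (Lt q))
  (a b : ℕ → Equiv.Perm (Fin n)) (x : Fin s → Fin n), Function.Injective x → NoShift g N P →
  1 ≤ N → 4 * s * N + 8 * N ≤ n →
  (Nat.card {y : World q n // Closed y a b g N x ∧ Fresh y a g N F x ∧ Fresh y b g N F x ∧
    3 * F + s * P + J * nl g N < nsplit y a b g N x} : ℝ) ≤
    4 ^ s * (C * (N : ℝ) ^ 3 / n) ^ (J / 3) * (n.factorial : ℝ) ^ q

open Classical in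
/-- SPA (helper7): split rounds from return probabilities of `b`-tuples from every start. Proof:
reveal the blocks in time order: in every round, for all earlier blocks, the probability that at
least `s / 4` tokens are together before the letter is at most `2 ^ s * ρ0` (choose `b` of them).
If `8 * nsplit ≤ 3 * s * nl` then at least half of the rounds with a fresh letter are such rounds. -/
def S_SPA : Prop := ∀ (q n N s b : ℕ) (μ : Equiv.Perm (Fin n) → ℝ) (ρ0 : ℝ)
  (g : Fin N → Option (Lt q)) (x : Fin s → Fin n) (y : World q n), Function.Injective x →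
  (∀ p, 0 ≤ μ p) → ∑ p, μ p = 1 → 1 ≤ b → 4 * b ≤ s →
  (∀ c c' : Fin b ↪ Fin n, ∑ A : Equiv.Perm (Fin n), ∑ B : Equiv.Perm (Fin n),
    (if ∀ i, A (c i) = B (c' i) then μ A * μ B else 0) ≤ ρ0) →
  2 ^ s * ρ0 ≤ 1 →
  ∑ A : Fin N → Equiv.Perm (Fin n), ∑ B : Fin N → Equiv.Perm (Fin n),
    (if 8 * nsplit y (extW A) (extW B) (extG g) N x ≤ 3 * (s * nl (extG g) N) then
      (∏ j, μ (A j)) * (∏ j, μ (B j)) else 0) ≤ 2 ^ N * (2 ^ s * ρ0) ^ (nl (extG g) N / 2)

/-- SPB (helper11): fixed words, few split pairs. Proof: reveal `y` in the time order of the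
`a`-paths. Success at (token `l`, round `v`) = the crossing of round `v` is new and the place after
the letter is a place where the words of round `v + 1` agree (`≤ f` places). There are at least `R`
successes, each has conditional probability at most `f / (n - s * N)`. -/
def S_SPB : Prop := ∀ (q n N s F D K1 R f : ℕ) (g : ℕ → Option (Lt q))
  (a b : ℕ → Equiv.Perm (Fin n)) (x : Fin s → Fin n), Function.Injective x → s * N < n →
  (badR a b g N f).card ≤ D → R + 2 * K1 + F + s * D ≤ s * nl g N →
  (Nat.card {y : World q n // Fresh y a g N F x ∧ nsplit y a b g N x ≤ K1} : ℝ) ≤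
    ((s * nl g N).choose R : ℝ) * ((f : ℝ) / ((n : ℝ) - s * N)) ^ R * (n.factorial : ℝ) ^ q

/-- WRD (helper5): few rounds with words agreeing at many places -/
def S_WRD : Prop := ∀ (n N f D : ℕ) (μ : Equiv.Perm (Fin n) → ℝ) (p1 : ℝ),
  (∀ p, 0 ≤ μ p) → ∑ p, μ p = 1 →
  ∑ A : Equiv.Perm (Fin n), ∑ B : Equiv.Perm (Fin n), (if f < agr A B then μ A * μ B else 0) ≤ p1 →
  ∑ A : Fin N → Equiv.Perm (Fin n), ∑ B : Fin N → Equiv.Perm (Fin n),
    (if D < (univ.filter fun v => f < agr (A v) (B v)).card then
      (∏ j, μ (A j)) * (∏ j, μ (B j)) else 0) ≤ 2 ^ N * p1 ^ (D + 1)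

/-- FR (helper73): unconfined paths cross distinct edges. Proof: in a round which is not confined
fewer than `c` tokens are at visited places, the others cross new edges, which are distinct. -/
def S_FR : Prop := ∀ (q n N s c B : ℕ) (g : ℕ → Option (Lt q)) (a : ℕ → Equiv.Perm (Fin n))
  (x : Fin s → Fin n) (y : World q n), Function.Injective x → Unc y a g N c B x →
  Fresh y a g N (c * nl g N + s * B) x

/-- confinement: from every start and for every set of at most `u` places, words of length `t2` bring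
`c` of the `s` tokens into the set with probability at most `β` -/
def Beta {LZ : Type} [Fintype LZ] (Z : Pool.Agent.Helper35.MP.Letters (Fin n) LZ) (S0 : LZ → ℝ)
    (s t2 u c : ℕ) (β : ℝ) : Prop :=
  ∀ (a : Fin s ↪ Fin n) (U : Finset (Fin n)), U.card ≤ u →
    ∑ w : Fin t2 → LZ, (if c ≤ (univ.filter fun l : Fin s =>
      Pool.Agent.Helper13.FS.wd Z t2 w (a l) ∈ U).card then ∏ k, S0 (w k) else 0) ≤ β

open Classical in
/-- HGA (top levels): the closing bound with SPA. `F = c * nl + s * B` by FR. -/
def S_HGA (C : ℝ) : Prop := ∀ (q n N s b c B P J N0 : ℕ) (μ : Equiv.Perm (Fin n) → ℝ) (ρ0 : ℝ)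
  (g : Fin N → Option (Lt q)) (x : Fin s → Fin n), Function.Injective x →
  (∀ p, 0 ≤ μ p) → ∑ p, μ p = 1 → 1 ≤ b → 4 * b ≤ s →
  (∀ c c' : Fin b ↪ Fin n, ∑ A : Equiv.Perm (Fin n), ∑ B : Equiv.Perm (Fin n),
    (if ∀ i, A (c i) = B (c' i) then μ A * μ B else 0) ≤ ρ0) →
  2 ^ s * ρ0 ≤ 1 → 1 ≤ N → 4 * s * N + 8 * N ≤ n →
  NoShift (extG g) N P → N0 ≤ nl (extG g) N →
  8 * (3 * (c * nl (extG g) N + s * B) + s * P + J * nl (extG g) N) < 3 * (s * nl (extG g) N) →
  ∑ A : Fin N → Equiv.Perm (Fin n), ∑ B' : Fin N → Equiv.Perm (Fin n),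
    (∏ j, μ (A j)) * (∏ j, μ (B' j)) *
      (Nat.card {y : World q n // Closed y (extW A) (extW B') (extG g) N x ∧
        Unc y (extW A) (extG g) N c B x ∧ Unc y (extW B') (extG g) N c B x} : ℝ) ≤
    (2 ^ N * (2 ^ s * ρ0) ^ (N0 / 2) + 4 ^ s * (C * (N : ℝ) ^ 3 / n) ^ (J / 3)) *
      (n.factorial : ℝ) ^ q

open Classical in
/-- HGB (middle levels): the closing bound with SPB and WRD. In `badR` there are at most
`(N - N0) + D + 1` rounds: fresh letters followed by a lazy round, the last round, and the rounds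
with words agreeing at more than `f` places. -/
def S_HGB (C : ℝ) : Prop := ∀ (q n N s c B P J N0 f D K1 R : ℕ) (μ : Equiv.Perm (Fin n) → ℝ)
  (p1 : ℝ) (g : Fin N → Option (Lt q)) (x : Fin s → Fin n), Function.Injective x →
  (∀ p, 0 ≤ μ p) → ∑ p, μ p = 1 →
  ∑ A : Equiv.Perm (Fin n), ∑ B : Equiv.Perm (Fin n), (if f < agr A B then μ A * μ B else 0) ≤ p1 →
  1 ≤ N → 4 * s * N + 8 * N ≤ n → NoShift (extG g) N P → N0 ≤ nl (extG g) N →
  3 * (c * nl (extG g) N + s * B) + s * P + J * nl (extG g) N ≤ K1 →
  R + 2 * K1 + (c * nl (extG g) N + s * B) + s * (N - N0 + D + 1) ≤ s * nl (extG g) N →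
  ∑ A : Fin N → Equiv.Perm (Fin n), ∑ B' : Fin N → Equiv.Perm (Fin n),
    (∏ j, μ (A j)) * (∏ j, μ (B' j)) *
      (Nat.card {y : World q n // Closed y (extW A) (extW B') (extG g) N x ∧
        Unc y (extW A) (extG g) N c B x ∧ Unc y (extW B') (extG g) N c B x} : ℝ) ≤
    (2 ^ N * p1 ^ (D + 1) +
      ((s * nl (extG g) N).choose R : ℝ) * ((f : ℝ) / ((n : ℝ) - s * N)) ^ R +
      4 ^ s * (C * (N : ℝ) ^ 3 / n) ^ (J / 3)) * (n.factorial : ℝ) ^ q

end Pool.Agent.Helper1.TP
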