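import Mathlib

/-!
# Project FS (MP_75608d_al): numbers of the stage theorem

`A` is the exponent (a small constant times `s log n`), `lam` the number of letters, `t` the time.
-/

set_option autoImplicit false

namespace Pool.Agent.Helper1.TP

open Real

/-- condition `h1` of the stage theorem -/
theorem stage_h1 {A κM lam ρ : ℝ} {t : ℕ} (hlam : 2 ≤ lam) (hρ : ρ = exp (-(2 * A)))
    (ht : t = ⌊A / (4 * log lam)⌋₊) (hM : κM ≤ A / 16) (hA : 64 ≤ A) :
    lam ^ t * sqrt ρ < 1 / 4 * exp (-(4 * (κM + 1))) := by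
  have hlog : 0 < log lam := log_pos (by linarith)
  have hA0 : 0 < A := by linarith
  have ht' : (t : ℝ) ≤ A / (4 * log lam) := by
    rw [ht]
    exact Nat.floor_le (by positivity)
  have h1 : lam ^ t ≤ exp (A / 4) := by
    have h2 : lam ^ t = exp (log lam * t) := by
      rw [mul_comm, exp_nat_mul, exp_log (by linarith)]
    rw [h2]
    apply exp_le_exp.2
    calc log lam * t ≤ log lam * (A / (4 * log lam)) := mul_le_mul_of_nonneg_left ht' hlog.le
      _ = A / 4 := by field_simp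
  have h3 : sqrt ρ = exp (-A) := by
    rw [hρ, show -(2 * A) = -A + -A by ring, exp_add, sqrt_mul_self (exp_pos _).le]
  rw [h3]
  have h4 : (1 / 4 : ℝ) = exp (-log 4) := by
    rw [exp_neg, exp_log (by norm_num)]
    norm_num
  calc lam ^ t * exp (-A) ≤ exp (A / 4) * exp (-A) :=
        mul_le_mul_of_nonneg_right h1 (exp_pos _).le
    _ = exp (-(3 / 4 * A)) := by rw [← exp_add]; ring_nf
    _ < 1 / 4 * exp (-(4 * (κM + 1))) := by
        rw [h4, ← exp_add]
        apply exp_lt_exp.2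
        have h5 : log 4 ≤ 2 := by
          have h6 : (4 : ℝ) ≤ exp 2 := by
            have h7 : exp 2 = exp 1 * exp 1 := by rw [← exp_add]; norm_num
            have h8 := add_one_le_exp (1 : ℝ)
            rw [h7]
            nlinarith
          calc log 4 ≤ log (exp 2) := log_le_log (by norm_num) h6
            _ = 2 := log_exp 2
        linarith

/-- condition `h2` of the stage theorem for `b = 2 ^ (-N) + 4 ^ (-N)` -/
theorem stage_h2 {κ : ℝ} {N : ℕ} (hκ : 4 * κ ≤ 1 / 4) (hN : 40 ≤ N) :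
    (1 / 2 : ℝ) ^ N + (1 / 4) ^ N ≤ exp (-(4 * (κ * N + 2))) := by
  have hN' : (40 : ℝ) ≤ N := by exact_mod_cast hN
  have h1 : (1 / 4 : ℝ) ^ N ≤ (1 / 2) ^ N := pow_le_pow_left₀ (by norm_num) (by norm_num) N
  have h2 : (1 / 2 : ℝ) ≤ exp (-(1 / 2)) := by
    have := add_one_le_exp (-(1 / 2) : ℝ)
    linarith
  have h3 : (1 / 2 : ℝ) ^ N ≤ exp (-(1 / 2 * N)) := by
    calc (1 / 2 : ℝ) ^ N ≤ (exp (-(1 / 2))) ^ N := pow_le_pow_left₀ (by norm_num) h2 N
      _ = exp (-(1 / 2 * N)) := by rw [← exp_nat_mul]; ring_nf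
  have h4 : (2 : ℝ) ≤ exp 1 := by
    have := add_one_le_exp (1 : ℝ)
    linarith
  calc (1 / 2 : ℝ) ^ N + (1 / 4) ^ N ≤ 2 * (1 / 2) ^ N := by linarith
    _ ≤ exp 1 * exp (-(1 / 2 * N)) := mul_le_mul h4 h3 (by positivity) (exp_pos _).le
    _ = exp (1 - 1 / 2 * N) := by rw [← exp_add]; ring_nf
    _ ≤ _ := by
        apply exp_le_exp.2
        nlinarith

/-- the conclusion of the stage theorem -/
theorem stage_out {A η lam r δ ρ : ℝ} {t : ℕ} (hlam : 2 ≤ lam) (hδ : δ = exp (-A))
    (hρ : ρ = exp (-(2 * A))) (hr0 : 0 ≤ r) (hr : r ≤ exp (-(4 * A)))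
    (ht : t = ⌊A / (4 * log lam)⌋₊) (hη0 : 0 < η) (hη : η ≤ log lam) (hη1 : η ≤ 1)
    (hA : 16 * log lam / η ≤ A) (hA2 : 64 ≤ A) :
    exp (-(η * t)) + 4 * t * exp (η * t) * (r / δ / ρ) ≤ exp (-(η / (16 * log lam) * A)) := by
  have hlog : 0 < log lam := log_pos (by linarith)
  have hA0 : 0 < A := by linarith
  have ht' : (t : ℝ) ≤ A / (4 * log lam) := by
    rw [ht]
    exact Nat.floor_le (by positivity)
  have ht'' : A / (4 * log lam) - 1 ≤ t := by
    rw [ht]
    exact (Nat.sub_one_lt_floor _).le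
  have hηt : η * t ≤ A / 4 := by
    calc η * t ≤ log lam * (A / (4 * log lam)) := mul_le_mul hη ht' (Nat.cast_nonneg _) hlog.le
      _ = A / 4 := by field_simp
  -- first term
  obtain ⟨e, he⟩ : ∃ e, e = η / (16 * log lam) * A := ⟨_, rfl⟩
  have he1 : 1 ≤ e := by
    rw [he, div_mul_eq_mul_div, le_div_iff₀ (by positivity)]
    rw [div_le_iff₀ hη0] at hA
    linarith
  have he2 : e ≤ A / 16 := by
    rw [he, div_mul_eq_mul_div, div_le_iff₀ (by positivity)]
    nlinarith
  have h1 : 4 * e - η ≤ η * t := by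
    have h2 : 4 * e = η * (A / (4 * log lam)) := by
      rw [he]
      field_simp
      ring
    rw [h2]
    have := mul_le_mul_of_nonneg_left ht'' hη0.le
    linarith
  have hηe : η ≤ e := by
    rw [he, div_mul_eq_mul_div, le_div_iff₀ (by positivity)]
    apply mul_le_mul_of_nonneg_left _ hη0.le
    rw [div_le_iff₀ hη0] at hA
    have h2 : A * η ≤ A * 1 := mul_le_mul_of_nonneg_left hη1 hA0.le
    linarith
  have hT1 : exp (-(η * t)) ≤ exp (-(3 * e)) := exp_le_exp.2 (by linarith)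
  -- second term
  have h3 : r / δ / ρ ≤ exp (-A) := by
    rw [hδ, hρ, div_div, ← exp_add, div_le_iff₀ (exp_pos _), ← exp_add]
    refine hr.trans (exp_le_exp.2 ?_)
    linarith
  have h3' : 0 ≤ r / δ / ρ := by
    rw [hδ, hρ]
    positivity
  have h4 : (4 : ℝ) * t ≤ exp (A / 4) := by
    have h5 : (t : ℝ) ≤ A := by
      refine ht'.trans ?_
      rw [div_le_iff₀ (by positivity)]
      have h6 : (1 : ℝ) / 2 ≤ log lam := by
        have h7 : (1 : ℝ) / 2 ≤ log 2 := by
          rw [le_log_iff_exp_le (by norm_num)]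
          have h8 : exp (1 / 2) * exp (1 / 2) = exp 1 := by rw [← exp_add]; norm_num
          have h9 : exp 1 < 2.7182818286 := exp_one_lt_d9
          have h10 : 0 < exp (1 / 2 : ℝ) := exp_pos _
          nlinarith
        exact h7.trans (log_le_log (by norm_num) hlam)
      nlinarith
    have h6 : A / 4 + 1 ≤ exp (A / 4) := add_one_le_exp _
    have h7 : 4 * A ≤ exp (A / 4) := by
      have h8 : exp (A / 4) = exp (A / 16) * exp (A / 16) * (exp (A / 16) * exp (A / 16)) := by
        rw [← exp_add, ← exp_add]; ring_nf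
      have h9 : A / 16 + 1 ≤ exp (A / 16) := add_one_le_exp _
      have h10 : (5 : ℝ) * (A / 16) ≤ exp (A / 16) * exp (A / 16) := by
        have : (5 : ℝ) ≤ exp (A / 16) := by linarith
        exact mul_le_mul this (by linarith) (by linarith) (exp_pos _).le
      have h11 : (25 : ℝ) ≤ exp (A / 16) * exp (A / 16) := by
        have : (5 : ℝ) ≤ exp (A / 16) := by linarith
        nlinarith
      rw [h8]
      calc 4 * A ≤ 25 * (5 * (A / 16)) := by linarith
        _ ≤ _ := mul_le_mul h11 h10 (by linarith) (by positivity)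
    linarith
  have hT2 : 4 * t * exp (η * t) * (r / δ / ρ) ≤ exp (-(3 * e)) := by
    calc 4 * t * exp (η * t) * (r / δ / ρ) ≤ exp (A / 4) * exp (A / 4) * exp (-A) := by
          apply mul_le_mul _ h3 h3' (by positivity)
          exact mul_le_mul h4 (exp_le_exp.2 hηt) (exp_pos _).le (exp_pos _).le
      _ = exp (-(A / 2)) := by rw [← exp_add, ← exp_add]; ring_nf
      _ ≤ _ := exp_le_exp.2 (by linarith)
  rw [← he]
  have h5 : (2 : ℝ) ≤ exp 1 := by
    have := add_one_le_exp (1 : ℝ)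
    linarith
  calc exp (-(η * t)) + 4 * t * exp (η * t) * (r / δ / ρ) ≤ 2 * exp (-(3 * e)) := by linarith
    _ ≤ exp 1 * exp (-(3 * e)) := mul_le_mul_of_nonneg_right h5 (exp_pos _).le
    _ = exp (1 - 3 * e) := by rw [← exp_add]; ring_nf
    _ ≤ exp (-e) := exp_le_exp.2 (by linarith)

end Pool.Agent.Helper1.TP
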