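import Pool.Agent.Helper1.TP.TopNum
import Pool.Agent.Helper1.TP.StageNum
import Pool.Agent.Helper73.TP.HG2
import Pool.Agent.Helper35.TP.Met
import Pool.Agent.Helper19.FS.Beta
import Pool.Agent.Helper4.FS.Pat
import Pool.Agent.Helper13.FS.RpPt
import Pool.Agent.Helper13.FS.Rp
import Pool.Agent.Helper7.FS.SpaG

/-!
# Project FS (MP_75608d_al): one level of the top range
-/

set_option autoImplicit false

namespace Pool.Agent.Helper1.TP

open Finset Real
open Pool.Agent.Helper35.MP Pool.Agent.Helper13.FS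
open Pool.Agent.Helper4.FS (World Lt Stp prog Uses BadPat badPat_le Mat)
open Pool.Agent.Helper3.AK (Alt lazyLaw)
open Pool.Agent.Helper38.FS (up rp)
open Pool.Agent.Helper86.FS (pT)

variable {q n s N : ℕ}

theorem extG_eq (g : Fin N → Option (Lt q)) : extG g = Pool.Agent.Helper35.FS.ext g := rfl

theorem nl_eq (g : ℕ → Option (Lt q)) (N : ℕ) : nl g N = Pool.Agent.Helper4.FS.nl g N := rfl

/-- a pattern which is not bad -/
theorem good_pat {g : Fin N → Option (Lt q)} (h : ¬ BadPat 64 g) :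
    N / 2 ≤ nl (extG g) N ∧ NoShift (extG g) N (nl (extG g) N / 64) := by
  unfold BadPat at h
  push Not at h
  obtain ⟨h1, h2⟩ := h
  have e : nl (extG g) N = Pool.Agent.Helper4.FS.nl (Pool.Agent.Helper35.FS.ext g) N := rfl
  refine ⟨by rw [e]; omega, ?_⟩
  intro I φ hI hφ hI2
  have hM : Mat (Pool.Agent.Helper35.FS.ext g) N I φ :=
    { dom := fun i hi => mem_range.1 (hI hi)
      cod := fun i hi => (hI2 i hi).1
      ne := fun i hi => (hI2 i hi).2.1
      mono := fun i hi j hj hij => hφ hi hj hij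
      act := fun i hi => (hI2 i hi).2.2.1
      eq := fun i hi => (hI2 i hi).2.2.2 }
  have h3 := h2 I φ hM
  rw [e, Nat.le_div_iff_mul_le (by norm_num)]
  omega

/-- the weight of the bad patterns -/
theorem bad_weight (hq : 2 ^ 512 ≤ q) : ∀ [DecidablePred fun g : Fin N → Option (Lt q) =>
    BadPat 64 g], ∑ g : Fin N → Option (Fin q × Bool) with BadPat 64 g,
      ∏ j, lwt (Fin q) (1 / 32) (g j) ≤ (1 / 2 : ℝ) ^ N + (1 / 4) ^ N := by
  classical
  intro inst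
  have hq0 : 0 < q := lt_of_lt_of_le (by positivity) hq
  have : Nonempty (Fin q) := ⟨⟨0, hq0⟩⟩
  have h := badPat_le (Q := Fin q) 64 (by norm_num) (N := N) (fun _ => lwt (Fin q) (1 / 32))
    (fun _ o => lwt_nn _ (by norm_num) (by norm_num) o)
    (fun _ => lwt_sum (Fin q) (by norm_num) (by norm_num)) (fun _ => le_rfl) ?_
  · refine le_trans (le_of_eq (Finset.sum_congr ?_ fun _ _ => rfl)) h
    ext g
    simp
  · intro _ l
    show (1 - 1 / 32 : ℝ) / (2 * Fintype.card (Fin q)) ≤ 1 / 2 ^ (8 * 64)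
    rw [Fintype.card_fin]
    obtain ⟨W, hW⟩ : ∃ W : ℕ, W = 2 ^ (8 * 64) := ⟨_, rfl⟩
    have h1 : W ≤ q := by rw [hW]; exact hq
    have h2 : (W : ℝ) ≤ q := by exact_mod_cast h1
    have h3 : (2 : ℝ) ^ (8 * 64) = W := by rw [hW]; push_cast; rfl
    have h4 : (0 : ℝ) < W := by rw [← h3]; positivity
    have h5 : (0 : ℝ) < q := by linarith
    rw [h3, div_le_div_iff₀ (by positivity) h4]
    linarith

theorem rp_zero_of_lt' {n k : ℕ} (z : Fin k → Alt n) (t : ℕ) {r : ℕ} (h : n < r) :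
    rp z t r = 0 := by
  unfold Pool.Agent.Helper38.FS.rp
  refine Finset.sum_eq_zero fun g _ => ?_
  rw [Nat.descFactorial_eq_zero_iff_lt.2 h]
  simp

/-- **one level** -/
theorem level {CF : ℝ} (hA : S_HGA CF) (hCF : 0 ≤ CF) {k : ℕ} (hk : 0 < k) (hq : 2 ^ 512 ≤ q)
    (hn2 : 2 ≤ n) (z : Fin k → Alt n) {b t0 t2 c : ℕ} {ρ0 β η A lam κ : ℝ}
    (hb : 1 ≤ b) (hbs : 4 * b ≤ s) (hρ00 : 0 ≤ ρ0)
    (hret : ∀ x : Fin b ↪ Fin n, pT (lazyLaw z (2 * t0)) x x ≤ ρ0) (hρ1 : 2 ^ s * ρ0 ≤ 1)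
    (hN : 200 ≤ N) (hn : 4 * s * N + 8 * N ≤ n) (hc : 100 * c ≤ s)
    (hBe : Beta (gl (up z)) (lwt (Fin k) (1 / 2)) s t2 (2 * N * s) c β) (ht2 : t2 ≤ t0)
    (hlam : lam = 2 * (k + q) + 1)
    (hκ : κ = 4 * (1 + 1 / (1 / 32)) * ((2 * (k + q)) * (η / (1 / 32))))
    (hβ : β < 1 / 1600 * exp (-((κ * t2 + 1) / (1 / 1600))))
    (hη0 : 0 < η) (hη1 : η ≤ 1) (hκ1 : 4 * κ ≤ 1 / 4) (hκM : κ * (((t0 : ℝ) + 1) * N) ≤ A / 16)
    (hA1 : 16 * log lam / η ≤ A) (hA64 : 64 ≤ A)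
    (hr : (2 : ℝ) ^ N * (2 ^ s * ρ0) ^ (N / 2 / 2) + 4 ^ s * (CF * (N : ℝ) ^ 3 / n) ^ (s / 100 / 3) ≤
      exp (-(4 * A))) :
    (Nat.card {y : Fin q → Alt n // exp (-(η / (16 * log lam) * A)) <
        rp (Fin.append z y) (2 * ⌊A / (4 * log lam)⌋₊) s} : ℝ) ≤
      2 ^ q * exp (-A) * (Fintype.card (Alt n) : ℝ) ^ q := by
  classical
  have hq0 : 0 < q := lt_of_lt_of_le (by positivity) hq
  have : Nonempty (Fin k) := ⟨⟨0, hk⟩⟩
  have : Nonempty (Fin q) := ⟨⟨0, hq0⟩⟩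
  obtain ⟨t, ht⟩ : ∃ t, t = ⌊A / (4 * log lam)⌋₊ := ⟨_, rfl⟩
  obtain ⟨δ, hδ⟩ : ∃ δ, δ = exp (-A) := ⟨_, rfl⟩
  obtain ⟨ρ, hρ⟩ : ∃ ρ, ρ = exp (-(2 * A)) := ⟨_, rfl⟩
  obtain ⟨r, hr'⟩ : ∃ r, r = (2 : ℝ) ^ N * (2 ^ s * ρ0) ^ (N / 2 / 2) +
    4 ^ s * (CF * (N : ℝ) ^ 3 / n) ^ (s / 100 / 3) := ⟨_, rfl⟩
  obtain ⟨Bd, hBd⟩ : ∃ Bd : ℝ, Bd = (2 * ((Fintype.card (Fin k) : ℝ) + q)) * (η / (1 / 32)) :=
    ⟨_, rfl⟩
  have hκ' : κ = 4 * (1 + 1 / (1 / 32)) * Bd := by
    rw [hκ, hBd, Fintype.card_fin]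
  have hlam2 : 2 ≤ lam := by
    have h1 : (1 : ℝ) ≤ q := by exact_mod_cast hq0
    have h2 : (0 : ℝ) ≤ k := Nat.cast_nonneg _
    rw [hlam]
    linarith
  have hlam3 : η ≤ log lam := by
    have h1 : (1 : ℝ) ≤ q := by exact_mod_cast hq0
    have h2 : (1 : ℝ) ≤ k := by exact_mod_cast hk
    have h3 : exp 1 ≤ lam := by
      have := exp_one_lt_d9
      rw [hlam]
      linarith
    have h4 : 1 ≤ log lam := (le_log_iff_exp_le (by linarith)).2 h3
    linarith
  have hr0 : 0 ≤ r := by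
    rw [hr']
    positivity
  have hcard : (Fintype.card (Option ((Fin k ⊕ Fin q) × Bool)) : ℝ) = lam := by
    rw [Fintype.card_option, Fintype.card_prod, Fintype.card_sum, Fintype.card_fin,
      Fintype.card_fin, Fintype.card_bool, hlam]
    push_cast
    ring
  rw [← hr'] at hr
  -- the two inequalities of the stage theorem
  have h1 : (Fintype.card (Option ((Fin k ⊕ Fin q) × Bool)) : ℝ) ^ t * Real.sqrt ρ <
      1 / 4 * Real.exp (-(4 * (4 * (1 + 1 / (1 / 32)) * (((t0 + 1) * N : ℕ) *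
        ((2 * ((Fintype.card (Fin k) : ℝ) + q)) * (η / (1 / 32)))) + 1))) := by
    rw [hcard, ← hBd]
    refine stage_h1 hlam2 hρ ht ?_ hA64
    refine le_trans (le_of_eq ?_) hκM
    rw [hκ']
    push_cast
    ring
  have h2 : (1 / 2 : ℝ) ^ N + (1 / 4) ^ N ≤ Real.exp (-(4 * (4 * (1 + 1 / (1 / 32)) * (N *
        ((2 * ((Fintype.card (Fin k) : ℝ) + q)) * (η / (1 / 32)))) + 2))) := by
    rw [← hBd]
    refine (stage_h2 hκ1 (by omega)).trans (le_of_eq ?_)
    rw [hκ']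
    ring_nf
  -- MET
  have hc0 : (0 : ℝ) < 1 / 1600 := by norm_num
  have hpc : β < 1 / 1600 * Real.exp (-((4 * (1 + 1 / (1 / 32)) * (t2 * Bd) + 1) / (1 / 1600))) := by
    refine lt_of_lt_of_le hβ (le_of_eq ?_)
    rw [hκ']
    ring_nf
  have hB8 : 8 * (1 / 1600 : ℝ) * N ≤ ((N / 200 : ℕ) : ℝ) + 1 := by
    have h3 : N ≤ 200 * (N / 200 + 1) := by omega
    have h4 : (N : ℝ) ≤ 200 * (((N / 200 : ℕ) : ℝ) + 1) := by exact_mod_cast h3
    linarith
  have hG := fun (y : Fin q → Equiv.Perm (Fin n)) (v : (Fin s ↪ Fin n) → ℝ) =>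
    Pool.Agent.Helper35.TP.met_unc (s := s) (up z) hq0 (θ := 1 / 32) (by norm_num) (by norm_num) t0 N
      (by omega) t2 ht2 c (N / 200) β hBe (1 / 1600) hc0 Bd hpc hB8 y v
  -- the closing bound
  have hWt : Wt (gl (up z)) (1 / 2) (lwt (Fin k) (1 / 2)) :=
    lwt_Wt (up z) (by norm_num) (by norm_num)
  have hg : ∀ g : Fin N → Option (Fin q × Bool), ¬ BadPat 64 g →
      ∑ y : Fin q → Equiv.Perm (Fin n), cloG (lz0 (up z) t0) s
        (Pool.Agent.Helper73.TP.GBU c (N / 200) y) g y ≤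
      r * Fintype.card (Fin s ↪ Fin n) * Fintype.card (Fin q → Equiv.Perm (Fin n)) := by
    intro g hgood
    obtain ⟨hN0, hNS⟩ := good_pat hgood
    apply Pool.Agent.Helper73.TP.hg_of
    intro x
    rw [hr']
    refine hA q n N s b c (N / 200) (nl (extG g) N / 64) (s / 100) (N / 2) (lz0 (up z) t0) ρ0 g x
      x.injective (fun p => law_nn _ hWt t0 p) (law_one _ hWt t0) hb hbs ?_ hρ1 (by omega) hn hNS
      hN0 ?_
    · intro c1 c2
      have h3 := Pool.Agent.Helper7.FS.rho_of_ret (gl (up z)) hWt t0 b (ρ := ρ0) (fun x => by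
        rw [ret_pT hk]
        exact hret x) c1 c2
      exact h3
    · obtain ⟨w, hw⟩ : ∃ w, w = nl (extG g) N := ⟨_, rfl⟩
      rw [← hw] at hN0 ⊢
      have h3 : 100 * (N / 200) ≤ w := by omega
      have h4 : 64 * (w / 64) ≤ w := by omega
      have h5 : 100 * (s / 100) ≤ s := by omega
      have a1 : 100 * c * w ≤ s * w := Nat.mul_le_mul_right w hc
      have a2 : s * (100 * (N / 200)) ≤ s * w := Nat.mul_le_mul_left s h3
      have a3 : s * (64 * (w / 64)) ≤ s * w := Nat.mul_le_mul_left s h4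
      have a4 : 100 * (s / 100) * w ≤ s * w := Nat.mul_le_mul_right w h5
      have a5 : 0 < s * w := Nat.mul_pos (by omega) (by omega)
      obtain ⟨B, hB⟩ : ∃ B, B = N / 200 := ⟨_, rfl⟩
      obtain ⟨P, hP⟩ : ∃ P, P = w / 64 := ⟨_, rfl⟩
      obtain ⟨J, hJ⟩ : ∃ J, J = s / 100 := ⟨_, rfl⟩
      rw [← hB] at a2 ⊢
      rw [← hP] at a3 ⊢
      rw [← hJ] at a4 ⊢
      have b1 : 100 * c * w = 100 * (c * w) := by ring
      have b2 : s * (100 * B) = 100 * (s * B) := by ring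
      have b3 : s * (64 * P) = 64 * (s * P) := by ring
      have b4 : 100 * J * w = 100 * (J * w) := by ring
      rw [b1] at a1
      rw [b2] at a2
      rw [b3] at a3
      rw [b4] at a4
      omega
  have hb' := bad_weight (q := q) (N := N) hq
  have key := stage_worldG (ι := Fin k) (up z) hq0 (θ := 1 / 32) (by norm_num) (by norm_num) s t0 N
    (fun g => BadPat 64 g) (Pool.Agent.Helper73.TP.GBU c (N / 200)) (r := r)
    (b := (1 / 2) ^ N + (1 / 4) ^ N) (η := η) (δ := δ) (ρ := ρ) t (by rw [hδ]; exact exp_pos _)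
    (by rw [hρ]; exact exp_pos _) ?_ hg hb' hr0 h1 h2
  · have hout := stage_out hlam2 hδ hρ hr0 hr ht hη0 hlam3 hη1 hA1 hA64
    have hcs : (0 : ℝ) ≤ Fintype.card (Fin s ↪ Fin n) := Nat.cast_nonneg _
    -- to the even worlds
    have key2 := alt_worlds (q := q) hn2 (fun y : Fin q → Equiv.Perm (Fin n) =>
      (Real.exp (-(η * t)) + 4 * t * Real.exp (η * t) * (r / δ / ρ)) *
        Fintype.card (Fin s ↪ Fin n) <
      ∑ x, ret (tup (gl (Sum.elim (up z) y)) s) (lwt (Fin k ⊕ Fin q) (1 / 2)) t x) (δ := δ) key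
    have hle : Nat.card {y : Fin q → Alt n // exp (-(η / (16 * log lam) * A)) <
        rp (Fin.append z y) (2 * ⌊A / (4 * log lam)⌋₊) s} ≤
        (univ.filter fun y : Fin q → Alt n =>
          (Real.exp (-(η * t)) + 4 * t * Real.exp (η * t) * (r / δ / ρ)) *
          Fintype.card (Fin s ↪ Fin n) <
          ∑ x, ret (tup (gl (Sum.elim (up z) (up y))) s) (lwt (Fin k ⊕ Fin q) (1 / 2)) t x).card := by
      rw [Nat.card_eq_fintype_card, Fintype.card_subtype]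
      apply card_le_card
      intro y hy
      rw [mem_filter] at hy ⊢
      refine ⟨hy.1, ?_⟩
      have hy2 := hy.2
      rw [← ht] at hy2
      rw [ret_rp hk]
      by_cases hc0 : (Fintype.card (Fin s ↪ Fin n) : ℝ) = 0
      · exfalso
        have hsn : n < s := by
          by_contra hcon
          push Not at hcon
          have : 0 < Fintype.card (Fin s ↪ Fin n) :=
            Fintype.card_pos_iff.2 ⟨Fin.castLEEmb hcon⟩
          have h3 : (0 : ℝ) < Fintype.card (Fin s ↪ Fin n) := by exact_mod_cast this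
          linarith
        rw [rp_zero_of_lt' _ _ hsn] at hy2
        exact absurd hy2 (not_lt.2 (exp_pos _).le)
      · have hcp : (0 : ℝ) < Fintype.card (Fin s ↪ Fin n) := lt_of_le_of_ne hcs (Ne.symm hc0)
        exact mul_lt_mul_of_pos_right (lt_of_le_of_lt hout hy2) hcp
    have hcardA : (Fintype.card (Fin q → Alt n) : ℝ) = (Fintype.card (Alt n) : ℝ) ^ q := by
      rw [Fintype.card_fun, Fintype.card_fin]
      push_cast
      rfl
    rw [hcardA] at key2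
    refine ((Nat.cast_le.2 hle).trans key2).trans (le_of_eq ?_)
    rw [hδ]
  · intro y v hv hv1 hvd
    exact hG y v hv hv1 (fun k => by rw [hBd]; exact hvd k)

end Pool.Agent.Helper1.TP
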