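import Pool.Agent.Helper1.TP.Level

/-!
# Project FS (MP_75608d_al): one level, general form

The closing bound for the good patterns is a hypothesis.
-/

set_option autoImplicit false

namespace Pool.Agent.Helper1.TP

open Finset Real
open Pool.Agent.Helper35.MP Pool.Agent.Helper13.FS
open Pool.Agent.Helper4.FS (World Lt Stp prog Uses BadPat badPat_le Mat)
open Pool.Agent.Helper3.AK (Alt lazyLaw)
open Pool.Agent.Helper38.FS (up rp)
open Pool.Agent.Helper86.FS (pT)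

variable {q n s N : ℕ}

open Classical in
/-- **one level**, general form -/
theorem level_gen {k : ℕ} (hk : 0 < k) (hq0 : 0 < q) (hn2 : 2 ≤ n) (z : Fin k → Alt n)
    {t0 t2 c B : ℕ} {β η A lam κ θ c0 r : ℝ} (hθ0 : 0 < θ) (hθ : θ ≤ 1 / 2)
    (BadP : (Fin N → Option (Fin q × Bool)) → Prop)
    (hBad : ∑ g : Fin N → Option (Fin q × Bool) with BadP g, ∏ j, lwt (Fin q) θ (g j) ≤
      (1 / 2 : ℝ) ^ N + (1 / 4) ^ N)
    (hcl : ∀ g, ¬ BadP g → ∀ x : Fin s ↪ Fin n, ∑ A : Fin N → Equiv.Perm (Fin n),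
      ∑ B' : Fin N → Equiv.Perm (Fin n), (∏ j, lz0 (up z) t0 (A j)) * (∏ j, lz0 (up z) t0 (B' j)) *
      (Nat.card {y : World q n // Closed y (extW A) (extW B') (extG g) N x ∧
        Unc y (extW A) (extG g) N c B x ∧ Unc y (extW B') (extG g) N c B x} : ℝ) ≤
      r * (n.factorial : ℝ) ^ q)
    (hN : 40 ≤ N) (hBe : Beta (gl (up z)) (lwt (Fin k) (1 / 2)) s t2 (2 * N * s) c β)
    (ht2 : t2 ≤ t0) (hlam : lam = 2 * (k + q) + 1)
    (hκ : κ = 4 * (1 + 1 / θ) * ((2 * (k + q)) * (η / θ))) (hc0 : 0 < c0)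
    (hβ : β < c0 * exp (-((κ * t2 + 1) / c0))) (hB8 : 8 * c0 * N ≤ (B : ℝ) + 1)
    (hη0 : 0 < η) (hη1 : η ≤ 1) (hκ1 : 4 * κ ≤ 1 / 4) (hκM : κ * (((t0 : ℝ) + 1) * N) ≤ A / 16)
    (hA1 : 16 * log lam / η ≤ A) (hA64 : 64 ≤ A) (hr0 : 0 ≤ r) (hr : r ≤ exp (-(4 * A))) :
    (Nat.card {y : Fin q → Alt n // exp (-(η / (16 * log lam) * A)) <
        rp (Fin.append z y) (2 * ⌊A / (4 * log lam)⌋₊) s} : ℝ) ≤
      2 ^ q * exp (-A) * (Fintype.card (Alt n) : ℝ) ^ q := by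
  have : Nonempty (Fin k) := ⟨⟨0, hk⟩⟩
  have : Nonempty (Fin q) := ⟨⟨0, hq0⟩⟩
  obtain ⟨t, ht⟩ : ∃ t, t = ⌊A / (4 * log lam)⌋₊ := ⟨_, rfl⟩
  obtain ⟨δ, hδ⟩ : ∃ δ, δ = exp (-A) := ⟨_, rfl⟩
  obtain ⟨ρ, hρ⟩ : ∃ ρ, ρ = exp (-(2 * A)) := ⟨_, rfl⟩
  obtain ⟨Bd, hBd⟩ : ∃ Bd : ℝ, Bd = (2 * ((Fintype.card (Fin k) : ℝ) + q)) * (η / θ) :=
    ⟨_, rfl⟩
  have hκ' : κ = 4 * (1 + 1 / θ) * Bd := by
    rw [hκ, hBd, Fintype.card_fin]
  have hlam2 : 2 ≤ lam := by
    have h1 : (1 : ℝ) ≤ q := by exact_mod_cast hq0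
    have h2 : (0 : ℝ) ≤ k := Nat.cast_nonneg _
    rw [hlam]
    linarith
  have hlam3 : η ≤ log lam := by
    have h1 : (1 : ℝ) ≤ q := by exact_mod_cast hq0
    have h2 : (1 : ℝ) ≤ k := by exact_mod_cast hk
    have h3 : exp 1 ≤ lam := by
      have := exp_one_lt_d9
      rw [hlam]
      linarith
    have h4 : 1 ≤ log lam := (le_log_iff_exp_le (by linarith)).2 h3
    linarith
  have hcard : (Fintype.card (Option ((Fin k ⊕ Fin q) × Bool)) : ℝ) = lam := by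
    rw [Fintype.card_option, Fintype.card_prod, Fintype.card_sum, Fintype.card_fin,
      Fintype.card_fin, Fintype.card_bool, hlam]
    push_cast
    ring
  -- the two inequalities of the stage theorem
  have h1 : (Fintype.card (Option ((Fin k ⊕ Fin q) × Bool)) : ℝ) ^ t * Real.sqrt ρ <
      1 / 4 * Real.exp (-(4 * (4 * (1 + 1 / θ) * (((t0 + 1) * N : ℕ) *
        ((2 * ((Fintype.card (Fin k) : ℝ) + q)) * (η / θ))) + 1))) := by
    rw [hcard, ← hBd]
    refine stage_h1 hlam2 hρ ht ?_ hA64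
    refine le_trans (le_of_eq ?_) hκM
    rw [hκ']
    push_cast
    ring
  have h2 : (1 / 2 : ℝ) ^ N + (1 / 4) ^ N ≤ Real.exp (-(4 * (4 * (1 + 1 / θ) * (N *
        ((2 * ((Fintype.card (Fin k) : ℝ) + q)) * (η / θ))) + 2))) := by
    rw [← hBd]
    refine (stage_h2 hκ1 hN).trans (le_of_eq ?_)
    rw [hκ']
    ring_nf
  -- MET
  have hpc : β < c0 * Real.exp (-((4 * (1 + 1 / θ) * (t2 * Bd) + 1) / c0)) := by
    refine lt_of_lt_of_le hβ (le_of_eq ?_)
    rw [hκ']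
    ring_nf
  have hG := fun (y : Fin q → Equiv.Perm (Fin n)) (v : (Fin s ↪ Fin n) → ℝ) =>
    Pool.Agent.Helper35.TP.met_unc (s := s) (up z) hq0 (θ := θ) hθ0 hθ t0 N
      (by omega) t2 ht2 c B β hBe c0 hc0 Bd hpc hB8 y v
  have hg : ∀ g : Fin N → Option (Fin q × Bool), ¬ BadP g →
      ∑ y : Fin q → Equiv.Perm (Fin n), cloG (lz0 (up z) t0) s
        (Pool.Agent.Helper73.TP.GBU c B y) g y ≤
      r * Fintype.card (Fin s ↪ Fin n) * Fintype.card (Fin q → Equiv.Perm (Fin n)) :=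
    fun g hgood => Pool.Agent.Helper73.TP.hg_of _ _ _ _ _ (hcl g hgood)
  have key := stage_worldG (ι := Fin k) (up z) hq0 (θ := θ) hθ0 hθ s t0 N
    BadP (Pool.Agent.Helper73.TP.GBU c B) (r := r)
    (b := (1 / 2) ^ N + (1 / 4) ^ N) (η := η) (δ := δ) (ρ := ρ) t (by rw [hδ]; exact exp_pos _)
    (by rw [hρ]; exact exp_pos _) ?_ hg hBad hr0 h1 h2
  · have hout := stage_out hlam2 hδ hρ hr0 hr ht hη0 hlam3 hη1 hA1 hA64
    have hcs : (0 : ℝ) ≤ Fintype.card (Fin s ↪ Fin n) := Nat.cast_nonneg _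
    -- to the even worlds
    have key2 := alt_worlds (q := q) hn2 (fun y : Fin q → Equiv.Perm (Fin n) =>
      (Real.exp (-(η * t)) + 4 * t * Real.exp (η * t) * (r / δ / ρ)) *
        Fintype.card (Fin s ↪ Fin n) <
      ∑ x, ret (tup (gl (Sum.elim (up z) y)) s) (lwt (Fin k ⊕ Fin q) (1 / 2)) t x) (δ := δ) key
    have hle : Nat.card {y : Fin q → Alt n // exp (-(η / (16 * log lam) * A)) <
        rp (Fin.append z y) (2 * ⌊A / (4 * log lam)⌋₊) s} ≤
        (univ.filter fun y : Fin q → Alt n =>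
          (Real.exp (-(η * t)) + 4 * t * Real.exp (η * t) * (r / δ / ρ)) *
          Fintype.card (Fin s ↪ Fin n) <
          ∑ x, ret (tup (gl (Sum.elim (up z) (up y))) s) (lwt (Fin k ⊕ Fin q) (1 / 2)) t x).card := by
      rw [Nat.card_eq_fintype_card, Fintype.card_subtype]
      apply card_le_card
      intro y hy
      rw [mem_filter] at hy ⊢
      refine ⟨hy.1, ?_⟩
      have hy2 := hy.2
      rw [← ht] at hy2
      rw [ret_rp hk]
      by_cases hc0 : (Fintype.card (Fin s ↪ Fin n) : ℝ) = 0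
      · exfalso
        have hsn : n < s := by
          by_contra hcon
          push Not at hcon
          have : 0 < Fintype.card (Fin s ↪ Fin n) :=
            Fintype.card_pos_iff.2 ⟨Fin.castLEEmb hcon⟩
          have h3 : (0 : ℝ) < Fintype.card (Fin s ↪ Fin n) := by exact_mod_cast this
          linarith
        rw [rp_zero_of_lt' _ _ hsn] at hy2
        exact absurd hy2 (not_lt.2 (exp_pos _).le)
      · have hcp : (0 : ℝ) < Fintype.card (Fin s ↪ Fin n) := lt_of_le_of_ne hcs (Ne.symm hc0)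
        exact mul_lt_mul_of_pos_right (lt_of_le_of_lt hout hy2) hcp
    have hcardA : (Fintype.card (Fin q → Alt n) : ℝ) = (Fintype.card (Alt n) : ℝ) ^ q := by
      rw [Fintype.card_fun, Fintype.card_fin]
      push_cast
      rfl
    rw [hcardA] at key2
    refine ((Nat.cast_le.2 hle).trans key2).trans (le_of_eq ?_)
    rw [hδ]
  · intro y v hv hv1 hvd
    exact hG y v hv hv1 (fun k => by rw [hBd]; exact hvd k)

end Pool.Agent.Helper1.TP
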