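import Pool.Agent.Helper38.FS.Defs
import Pool.Agent.Helper86.FS.StartDefs

/-!
# Project FS (MP_75608d_al), top levels: the statement of one level with numbers
-/

set_option autoImplicit false

namespace Pool.Agent.Helper1.TP

open Real
open Pool.Agent.Helper3.AK (Alt lazyLaw TupleGap)
open Pool.Agent.Helper38.FS (rp)
open Pool.Agent.Helper86.FS (pT)

/-- one top level `s = 4 b`, for `n / (C1 log n) ≤ s ≤ n / 200000` (written by helper1, from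
`Helper1/TP/Level.lean`). The hypothesis on the return probabilities is the conclusion of
`SUPSTARTStmt` for `K = 32 C1`, with `CS` the constant `C₁` of `SUPSTARTStmt`, and `k` is the number of
generators including the one added by START. -/
def S_TOPLEV : Prop := ∀ (k : ℕ) (ε C1 CS : ℝ), 0 < k → 0 < ε → ε ≤ 1 → 0 < C1 → 0 < CS →
  ∃ (q : ℕ) (C ξ : ℝ) (n0 : ℕ), 0 < C ∧ 0 < ξ ∧ ∀ n ≥ n0, ∀ z : Fin k → Alt n, TupleGap z 2 ε →
  ∀ b : ℕ, (n : ℝ) ≤ C1 * log n * ((4 * b : ℕ) : ℝ) → 200000 * (4 * b) ≤ n →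
  (∀ (a : Fin b ↪ Fin n) (t : ℕ), CS * ((b : ℝ) ^ 2 / n) * log n ≤ t →
    pT (lazyLaw z (2 * t)) a a ≤ exp (-(32 * C1 * ((b : ℝ) ^ 2 / n) * log n))) →
  (Nat.card {y : Fin q → Alt n // (n : ℝ) ^ (-(ξ * ((4 * b : ℕ) : ℝ))) <
    rp (Fin.append z y) (2 * ⌈C * ((4 * b : ℕ) : ℝ) * log n⌉₊) (4 * b)} : ℝ) ≤
    (n : ℝ) ^ (-1 : ℝ) * (Fintype.card (Alt n) : ℝ) ^ q

end Pool.Agent.Helper1.TP
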