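import Pool.Agent.Helper1.TP.Level
import Pool.Agent.Helper1.TP.Consts
import Pool.Agent.Helper1.TP.TopGoals
import Pool.Agent.Helper46.FS.FclTP
import Pool.Agent.Helper19.FS.BetaUp
import Pool.Agent.Helper3.FS.Rp

/-!
# Project FS (MP_75608d_al), top levels: one level with numbers
-/

set_option autoImplicit false

namespace Pool.Agent.Helper1.TP

open Real Filter
open Pool.Agent.Helper35.MP Pool.Agent.Helper13.FS
open Pool.Agent.Helper3.AK (Alt lazyLaw TupleGap)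
open Pool.Agent.Helper38.FS (up rp)
open Pool.Agent.Helper86.FS (pT)

theorem num1 {n s : ℕ} {ℓ M M' C1 X : ℝ} (hX0 : 0 < X) (hX : X * X = n) (hM : M * ℓ ^ 3 ≤ X)
    (hℓ : 1 ≤ ℓ) (hC1 : 0 < C1) (hM' : C1 * M' ≤ M) (hM0 : 0 ≤ M')
    (hlow : (n : ℝ) ≤ C1 * ℓ * s) : M' * X ≤ s := by
  have h1 : C1 * M' * ℓ ≤ M * ℓ ^ 3 := by
    have h2 : 0 ≤ C1 * M' := by positivity
    have h3 : ℓ ≤ ℓ ^ 3 := by nlinarith [mul_pos (show 0 < ℓ by linarith) (show 0 < ℓ by linarith)]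
    calc C1 * M' * ℓ ≤ M * ℓ := mul_le_mul_of_nonneg_right hM' (by linarith)
      _ ≤ M * ℓ ^ 3 := mul_le_mul_of_nonneg_left h3 (h2.trans hM')
  have h2 : C1 * ℓ * (M' * X) ≤ C1 * ℓ * s := by
    calc C1 * ℓ * (M' * X) = C1 * M' * ℓ * X := by ring
      _ ≤ X * X := mul_le_mul_of_nonneg_right (h1.trans hM) hX0.le
      _ ≤ _ := by rw [hX]; exact hlow
  exact le_of_mul_le_mul_left h2 (by positivity)

/-- the constants -/
theorem consts {k q : ℕ} {ε C1 CS : ℝ} (hk : 0 < k) (hq : 0 < q) (hε : 0 < ε) (hC1 : 0 < C1)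
    (hCS : 0 < CS) : ∃ (κ1 lam cr a η M' M : ℝ), κ1 = 8448 * (k + q) ∧ lam = 2 * (k + q) + 1 ∧
    1 ≤ log lam ∧ 0 < cr ∧ 2 * cr ≤ C1 / 10 ^ 5 ∧ 2 * cr ≤ 1 / 4800 ∧ a = cr / 4 ∧
    0 < η ∧ η ≤ 1 ∧ κ1 * η ≤ 1 / 16 ∧ κ1 * η * (CS + 2) ≤ a / 16 ∧ κ1 * η * 51200 ≤ ε ∧
    1000 ≤ M' ∧ C1 ≤ M' ∧ 16 * log lam / (η * a) ≤ M' ∧ 64 / a ≤ M' ∧ 1 / cr ≤ M' ∧
    (1 + q) / a ≤ M' ∧ 16 * C1 * (4 / ε + 1) / CS ≤ M' ∧ 1 ≤ M ∧ C1 * M' ≤ M ∧
    72 * C1 ^ 3 ≤ M := by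
  have hk' : (1 : ℝ) ≤ k := by exact_mod_cast hk
  have hq' : (1 : ℝ) ≤ q := by exact_mod_cast hq
  obtain ⟨κ1, hκ1⟩ : ∃ κ1 : ℝ, κ1 = 8448 * (k + q) := ⟨_, rfl⟩
  have hκ0 : 0 < κ1 := by rw [hκ1]; positivity
  obtain ⟨lam, hlam⟩ : ∃ lam : ℝ, lam = 2 * (k + q) + 1 := ⟨_, rfl⟩
  have hL : 1 ≤ log lam := by
    have h3 : exp 1 ≤ lam := by
      have := exp_one_lt_d9
      rw [hlam]
      linarith
    exact (le_log_iff_exp_le (by linarith [exp_pos (1 : ℝ)])).2 h3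
  obtain ⟨cr, hcr⟩ : ∃ cr : ℝ, cr = min (C1 / 10 ^ 5) (1 / 4800) / 2 := ⟨_, rfl⟩
  have hcr0 : 0 < cr := by rw [hcr]; positivity
  obtain ⟨a, ha⟩ : ∃ a, a = cr / 4 := ⟨_, rfl⟩
  have ha0 : 0 < a := by rw [ha]; positivity
  obtain ⟨η, hη⟩ : ∃ η, η = min 1 (min (1 / (16 * κ1)) (min (a / (16 * κ1 * (CS + 2)))
    (ε / (51200 * κ1)))) := ⟨_, rfl⟩
  have hη0 : 0 < η := by rw [hη]; positivity
  have hη1 : η ≤ 1 := by rw [hη]; exact min_le_left _ _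
  have hη2 : η ≤ 1 / (16 * κ1) := by
    rw [hη]; exact (min_le_right _ _).trans (min_le_left _ _)
  have hη3 : η ≤ a / (16 * κ1 * (CS + 2)) := by
    rw [hη]; exact (min_le_right _ _).trans ((min_le_right _ _).trans (min_le_left _ _))
  have hη4 : η ≤ ε / (51200 * κ1) := by
    rw [hη]; exact (min_le_right _ _).trans ((min_le_right _ _).trans (min_le_right _ _))
  rw [le_div_iff₀ (by positivity)] at hη2 hη3 hη4
  obtain ⟨M', hM'⟩ : ∃ M' : ℝ, M' = 1000 + C1 + 16 * log lam / (η * a) + 64 / a + 1 / cr +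
    (1 + q) / a + 16 * C1 * (4 / ε + 1) / CS := ⟨_, rfl⟩
  have p1 : 0 < 16 * log lam / (η * a) := by positivity
  have p2 : 0 < 64 / a := by positivity
  have p3 : 0 < 1 / cr := by positivity
  have p4 : 0 < (1 + q) / a := by positivity
  have p5 : 0 < 16 * C1 * (4 / ε + 1) / CS := by positivity
  refine ⟨κ1, lam, cr, a, η, M', 1 + C1 * M' + 72 * C1 ^ 3, hκ1, hlam, hL, hcr0, ?_, ?_, ha, hη0,
    hη1, ?_, ?_, ?_, ?_, ?_, ?_, ?_, ?_, ?_, ?_, ?_, ?_, ?_⟩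
  · rw [hcr]
    have := min_le_left (C1 / 10 ^ 5) (1 / 4800 : ℝ)
    linarith
  · rw [hcr]
    have := min_le_right (C1 / 10 ^ 5) (1 / 4800 : ℝ)
    linarith
  · linarith
  · linarith
  · linarith
  · rw [hM']; linarith
  · rw [hM']; linarith
  · rw [hM']; linarith
  · rw [hM']; linarith
  · rw [hM']; linarith
  · rw [hM']; linarith
  · rw [hM']; linarith
  · have h0 : 0 ≤ M' := by rw [hM']; positivity
    have h1 : 0 ≤ C1 * M' := by positivity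
    have h2 : 0 ≤ 72 * C1 ^ 3 := by positivity
    linarith
  · have h2 : 0 ≤ 72 * C1 ^ 3 := by positivity
    linarith
  · have h0 : 0 ≤ M' := by rw [hM']; positivity
    have h1 : 0 ≤ C1 * M' := by positivity
    linarith

/-- numbers of one level -/
theorem nums {n s b N : ℕ} {ℓ C1 CS κ1 a η M' M cr ε X Λ : ℝ} (hk0 : 0 < κ1) (hε : 0 < ε)
    (hC1 : 0 < C1) (hCS : 0 < CS) (hcr0 : 0 < cr)
    (hcr1 : 2 * cr ≤ C1 / 10 ^ 5) (hcr2 : 2 * cr ≤ 1 / 4800) (ha : a = cr / 4) (hη0 : 0 < η)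
    (hη3 : κ1 * η * (CS + 2) ≤ a / 16) (m1 : 1000 ≤ M')
    (m2 : C1 ≤ M') (m5 : 1 / cr ≤ M') (m7 : 16 * C1 * (4 / ε + 1) / CS ≤ M') (M1 : 1 ≤ M)
    (M2 : C1 * M' ≤ M) (M3 : 72 * C1 ^ 3 ≤ M) (hs : s = 4 * b) (hℓ : ℓ = log n)
    (hℓ1 : 30000 ≤ ℓ) (hX0 : 0 < X) (hX : X * X = n) (hXe : X = exp (ℓ / 2)) (hM : M * ℓ ^ 3 ≤ X)
    (hlow : (n : ℝ) ≤ C1 * ℓ * s) (hhigh : 200000 * s ≤ n) (hN : N = n / (1000 * s))
    (hΛ : Λ = ((s : ℝ) / 4) ^ 2 / n * ℓ) :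
    M' ≤ s ∧ X ≤ s ∧ 200 ≤ N ∧ 1000 * s * N ≤ n ∧ (s : ℝ) ≤ 16 * C1 * Λ ∧
    4 / ε * ℓ ≤ CS * Λ ∧ κ1 * η * ((CS * Λ + 2) * N) ≤ a * (s * ℓ) / 16 ∧
    (2 : ℝ) ^ N * ((2 : ℝ) ^ s * exp (-(32 * C1 * Λ))) ^ (N / 2 / 2) +
      (4 : ℝ) ^ s * (72 * (N : ℝ) ^ 3 / n) ^ (s / 100 / 3) ≤ exp (-(4 * (a * (s * ℓ)))) := by
  have hℓ0 : 0 < ℓ := by linarith
  have hX1 : ℓ ≤ X := by
    have h3 : ℓ ≤ ℓ ^ 3 := by
      have h4 : (1 : ℝ) ≤ ℓ ^ 2 := one_le_pow₀ (by linarith)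
      nlinarith
    calc ℓ ≤ ℓ ^ 3 := h3
      _ ≤ M * ℓ ^ 3 := le_mul_of_one_le_left (by positivity) M1
      _ ≤ X := hM
  have hsX : M' * X ≤ s := num1 hX0 hX hM (by linarith) hC1 M2 (by linarith) hlow
  have hM's : M' ≤ s := by
    refine le_trans ?_ hsX
    exact le_mul_of_one_le_right (by linarith) (by linarith)
  have hXs : X ≤ s := by
    refine le_trans ?_ hsX
    exact le_mul_of_one_le_left hX0.le (by linarith)
  have hs0 : (0 : ℝ) < s := by linarith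
  have hsn : 0 < s := by exact_mod_cast hs0
  have hs1000 : 1000 ≤ s := by
    have : (1000 : ℝ) ≤ s := by linarith
    exact_mod_cast this
  have hN200 : 200 ≤ N := by
    rw [hN, Nat.le_div_iff_mul_le (by omega)]
    omega
  obtain ⟨hb1, hb2⟩ := N_bounds hN hsn (by omega)
  have hn0 : (0 : ℝ) < n := by rw [← hX]; positivity
  have hn0' : 0 < n := by exact_mod_cast hn0
  have hN1 : (N : ℝ) ≤ C1 * ℓ / 1000 := by
    have h3 : (N : ℝ) * (1000 * s) ≤ C1 * ℓ * s := hb1.trans hlow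
    have h4 : (N : ℝ) * 1000 * s ≤ C1 * ℓ * s := by linarith
    have h5 := le_of_mul_le_mul_right h4 hs0
    linarith
  have hN0 : (0 : ℝ) ≤ N := Nat.cast_nonneg _
  have hΛ1 : (s : ℝ) ≤ 16 * C1 * Λ := by
    rw [hΛ]
    have : 16 * C1 * (((s : ℝ) / 4) ^ 2 / n * ℓ) = s * (C1 * ℓ * s) / n := by
      field_simp
      ring
    rw [this, le_div_iff₀ hn0]
    exact mul_le_mul_of_nonneg_left hlow hs0.le
  have hΛ0 : 0 < Λ := by
    rw [hΛ]
    positivity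
  refine ⟨hM's, hXs, hN200, ?_, hΛ1, ?_, ?_, ?_⟩
  · rw [hN, mul_comm]
    exact Nat.div_mul_le_self _ _
  · -- `t2 ≤ t0`
    rw [div_le_iff₀ hCS] at m7
    have h1 : 16 * C1 * ((4 / ε + 1) * X) ≤ 16 * C1 * (CS * Λ) := by
      calc 16 * C1 * ((4 / ε + 1) * X) = 16 * C1 * (4 / ε + 1) * X := by ring
        _ ≤ M' * CS * X := mul_le_mul_of_nonneg_right m7 hX0.le
        _ = CS * (M' * X) := by ring
        _ ≤ CS * s := mul_le_mul_of_nonneg_left hsX hCS.le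
        _ ≤ CS * (16 * C1 * Λ) := mul_le_mul_of_nonneg_left hΛ1 hCS.le
        _ = _ := by ring
    have h2 := le_of_mul_le_mul_left h1 (by positivity)
    refine le_trans ?_ h2
    have h3 : 0 < 4 / ε := by positivity
    exact mul_le_mul (by linarith) hX1 hℓ0.le (by linarith)
  · -- the time of the schedule
    have h1 : Λ * N ≤ s * ℓ := by
      rw [hΛ]
      have : ((s : ℝ) / 4) ^ 2 / n * ℓ * N = s * ℓ * (N * (1000 * s)) / (16000 * n) := by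
        field_simp
        ring
      rw [this, div_le_iff₀ (by positivity)]
      apply mul_le_mul_of_nonneg_left _ (by positivity)
      linarith
    have h2 : (N : ℝ) ≤ s * ℓ := by
      refine hN1.trans ?_
      have h3 : C1 * ℓ ≤ s * ℓ := mul_le_mul_of_nonneg_right (m2.trans hM's) hℓ0.le
      have h4 : 0 ≤ (s : ℝ) * ℓ := by positivity
      linarith
    have h3 : (CS * Λ + 2) * N ≤ (CS + 2) * (s * ℓ) := by
      have := mul_le_mul_of_nonneg_left h1 hCS.le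
      linarith
    have h4 : 0 ≤ κ1 * η := by positivity
    have h5 : 0 ≤ (s : ℝ) * ℓ := by positivity
    calc κ1 * η * ((CS * Λ + 2) * N) ≤ κ1 * η * ((CS + 2) * (s * ℓ)) :=
          mul_le_mul_of_nonneg_left h3 h4
      _ = κ1 * η * (CS + 2) * (s * ℓ) := by ring
      _ ≤ a / 16 * (s * ℓ) := mul_le_mul_of_nonneg_right hη3 h5
      _ = _ := by ring
  · -- `r`
    have hbig : (N : ℝ) ≤ C1 / 10 ^ 6 * (s * ℓ) := by
      refine hN1.trans ?_
      have h3 : (1000 : ℝ) ≤ s := by linarith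
      have h4 : 0 ≤ C1 * ℓ := by positivity
      have h5 := mul_le_mul_of_nonneg_left h3 h4
      linarith
    have hr1 := r_first (K := 32 * C1) (ρ0 := exp (-(32 * C1 * Λ))) hC1 rfl hN hsn (by omega) hℓ0
      hlow hΛ rfl hbig
    have hsm : 72 * (N : ℝ) ^ 3 / n ≤ exp (-(ℓ / 2)) := by
      have h3 : (N : ℝ) ≤ C1 * ℓ := by
        have : 0 ≤ C1 * ℓ := by positivity
        linarith
      have h4 : (N : ℝ) ^ 3 ≤ (C1 * ℓ) ^ 3 := pow_le_pow_left₀ hN0 h3 3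
      have h5 : 72 * (N : ℝ) ^ 3 ≤ X := by
        calc 72 * (N : ℝ) ^ 3 ≤ 72 * (C1 * ℓ) ^ 3 := by linarith
          _ = 72 * C1 ^ 3 * ℓ ^ 3 := by ring
          _ ≤ M * ℓ ^ 3 := mul_le_mul_of_nonneg_right M3 (by positivity)
          _ ≤ X := hM
      rw [exp_neg, ← hXe, ← hX, div_le_iff₀ (by positivity)]
      refine h5.trans (le_of_eq ?_)
      field_simp
    have hr2 := r_second (CF := 72) (ℓ := ℓ) (by norm_num) (by omega : 600 ≤ s) hℓ hn0' hsm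
      (by linarith)
    have hsℓ : (s : ℝ) ≤ s * ℓ := le_mul_of_one_le_right hs0.le (by linarith)
    have hsℓ0 : 0 ≤ (s : ℝ) * ℓ := by positivity
    have h3 : exp (-(C1 / 10 ^ 5 * (s * ℓ))) ≤ exp (-(2 * cr * (s * ℓ))) := by
      apply exp_le_exp.2
      have := mul_le_mul_of_nonneg_right hcr1 hsℓ0
      linarith
    have h4 : exp (-(1 / 4800 * (s * ℓ))) ≤ exp (-(2 * cr * (s * ℓ))) := by
      apply exp_le_exp.2
      have := mul_le_mul_of_nonneg_right hcr2 hsℓ0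
      linarith
    have h5 : 2 ≤ exp (cr * (s * ℓ)) := by
      rw [div_le_iff₀ hcr0] at m5
      have h6 : 1 ≤ cr * (s * ℓ) := by
        calc (1 : ℝ) ≤ M' * cr := m5
          _ ≤ s * ℓ * cr := mul_le_mul_of_nonneg_right (hM's.trans hsℓ) hcr0.le
          _ = _ := by ring
      have := add_one_le_exp (cr * (s * ℓ))
      linarith
    calc _ ≤ exp (-(C1 / 10 ^ 5 * (s * ℓ))) + exp (-(1 / 4800 * (s * ℓ))) := add_le_add hr1 hr2
      _ ≤ 2 * exp (-(2 * cr * (s * ℓ))) := by linarith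
      _ ≤ exp (cr * (s * ℓ)) * exp (-(2 * cr * (s * ℓ))) :=
          mul_le_mul_of_nonneg_right h5 (exp_pos _).le
      _ = exp (-(4 * (a * (s * ℓ)))) := by rw [← exp_add, ha]; ring_nf

/-- the bound for `β` -/
theorem beta_lt {κ ε ℓ : ℝ} {t2 : ℕ} (hκ0 : 0 ≤ κ) (hκ1 : κ ≤ 1) (hκ : κ * 51200 ≤ ε) (hε : 0 < ε)
    (hℓ1 : 30000 ≤ ℓ) (ht2 : (t2 : ℝ) ≤ 4 / ε * ℓ + 1) :
    exp (-(ℓ / 4)) < 1 / 1600 * exp (-((κ * t2 + 1) / (1 / 1600))) := by
  have h1 : κ * t2 ≤ ℓ / 12800 + κ := by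
    calc κ * t2 ≤ κ * (4 / ε * ℓ + 1) := mul_le_mul_of_nonneg_left ht2 hκ0
      _ = κ * (4 / ε) * ℓ + κ := by ring
      _ ≤ 1 / 12800 * ℓ + κ := by
          have h2 : κ * (4 / ε) ≤ 1 / 12800 := by
            rw [mul_div_assoc', div_le_iff₀ hε]
            linarith
          have := mul_le_mul_of_nonneg_right h2 (show 0 ≤ ℓ by linarith)
          linarith
      _ = _ := by ring
  have h3 : (1600 : ℝ) < exp 550 := by
    have h4 : exp 550 = exp 275 * exp 275 := by rw [← exp_add]; norm_num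
    have h5 := add_one_le_exp (275 : ℝ)
    rw [h4]
    nlinarith
  have h4 : (κ * t2 + 1) / (1 / 1600) ≤ ℓ / 8 + 3200 := by
    rw [div_div_eq_mul_div, div_one]
    linarith
  have h5 : exp (-(ℓ / 4)) ≤ exp (-550) * exp (-((κ * t2 + 1) / (1 / 1600))) := by
    rw [← exp_add]
    apply exp_le_exp.2
    linarith
  refine lt_of_le_of_lt h5 ?_
  apply mul_lt_mul_of_pos_right _ (exp_pos _)
  rw [exp_neg, one_div]
  exact inv_strictAnti₀ (by norm_num) h3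

/-- **one top level** -/
theorem s_toplev : S_TOPLEV := by
  intro k ε C1 CS hk hε hε1 hC1 hCS
  obtain ⟨q, hq⟩ : ∃ q : ℕ, 2 ^ 512 ≤ q := ⟨_, le_rfl⟩
  have hq0 : 0 < q := lt_of_lt_of_le (by positivity) hq
  obtain ⟨κ1, lam, cr, a, η, M', M, hκ1, hlam, hL, hcr0, hcr1, hcr2, ha, hη0, hη1, hη2, hη3, hη4,
    m1, m2, m3, m4, m5, m6, m7, M1, M2, M3⟩ := consts hk hq0 hε hC1 hCS
  have ha0 : 0 < a := by rw [ha]; positivity
  have hκ0 : 0 < κ1 := by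
    have : (1 : ℝ) ≤ q := by exact_mod_cast hq0
    rw [hκ1]
    positivity
  have hL0 : 0 < log lam := by linarith
  obtain ⟨nb, hnb⟩ := Pool.Agent.Helper19.FS.beta_top
  have hev : ∀ᶠ n : ℕ in atTop, M * (log n) ^ 3 ≤ (n : ℝ) ^ (1 / 2 : ℝ) ∧ 30000 ≤ log (n : ℝ) ∧
      nb ≤ n ∧ 2 ≤ n := by
    filter_upwards [ev_log M, (tendsto_log_atTop.comp tendsto_natCast_atTop_atTop).eventually_ge_atTop
      30000, eventually_ge_atTop nb, eventually_ge_atTop 2] with n h1 h2 h3 h4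
    exact ⟨h1, h2, h3, h4⟩
  obtain ⟨n0, hn0⟩ := eventually_atTop.1 hev
  refine ⟨q, a / (4 * log lam), η / (16 * log lam) * a, n0, by positivity, by positivity,
    fun n hn z hz b hlow hhigh hret => ?_⟩
  obtain ⟨hM, hℓ, hnb', hn2⟩ := hn0 n hn
  obtain ⟨s, hs⟩ : ∃ s : ℕ, s = 4 * b := ⟨_, rfl⟩
  rw [← hs] at hlow hhigh ⊢
  obtain ⟨ℓ, hℓe⟩ : ∃ ℓ, ℓ = log (n : ℝ) := ⟨_, rfl⟩
  rw [← hℓe] at hM hℓ hlow hret ⊢
  have hn0' : (0 : ℝ) < n := by
    have : 0 < n := by omega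
    exact_mod_cast this
  have hne : (n : ℝ) = exp ℓ := by rw [hℓe, exp_log hn0']
  obtain ⟨X, hXe⟩ : ∃ X : ℝ, X = (n : ℝ) ^ (1 / 2 : ℝ) := ⟨_, rfl⟩
  have hXe2 : X = exp (ℓ / 2) := by
    rw [hXe, hne, ← exp_mul]
    ring_nf
  have hX0 : 0 < X := by rw [hXe2]; exact exp_pos _
  have hX : X * X = n := by
    rw [hXe2, ← exp_add, hne]
    ring_nf
  rw [← hXe] at hM
  obtain ⟨Λ, hΛ⟩ : ∃ Λ, Λ = ((s : ℝ) / 4) ^ 2 / n * ℓ := ⟨_, rfl⟩
  obtain ⟨N, hN⟩ : ∃ N, N = n / (1000 * s) := ⟨_, rfl⟩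
  have hsb : ((s : ℝ) / 4) = b := by rw [hs]; push_cast; ring
  obtain ⟨c1, c2, c3, c4, c5, c6, c7, c8⟩ := nums hκ0 hε hC1 hCS hcr0 hcr1 hcr2 ha hη0 hη3 m1 m2 m5
    m7 M1 M2 M3 hs hℓe hℓ hX0 hX hXe2 hM hlow hhigh hN hΛ
  have hs0 : (0 : ℝ) < s := by linarith
  have hsn : 0 < s := by exact_mod_cast hs0
  have hs1000 : 1000 ≤ s := by
    have : (1000 : ℝ) ≤ s := by linarith
    exact_mod_cast this
  have hsℓ : (s : ℝ) ≤ s * ℓ := le_mul_of_one_le_right hs0.le (by linarith)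
  obtain ⟨t2, ht2⟩ : ∃ t2, t2 = ⌈4 / ε * ℓ⌉₊ := ⟨_, rfl⟩
  obtain ⟨t0, ht0⟩ : ∃ t0, t0 = ⌈CS * Λ⌉₊ := ⟨_, rfl⟩
  have hΛ0 : 0 < Λ := by
    rw [hΛ]
    have : 0 < ℓ := by linarith
    positivity
  have ht0' : (t0 : ℝ) ≤ CS * Λ + 1 := by
    rw [ht0]
    exact (Nat.ceil_lt_add_one (by positivity)).le
  have ht2' : (t2 : ℝ) ≤ 4 / ε * ℓ + 1 := by
    rw [ht2]
    refine (Nat.ceil_lt_add_one ?_).le
    have : 0 < ℓ := by linarith
    positivity
  have hsn' : s ≤ n := by omega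
  have hXs : (n : ℝ) ^ (1 / 2 : ℝ) ≤ s := by rw [← hXe]; exact c2
  have hBe := hnb n k hnb' hk z ε hε (by linarith) hz s t2 N
    (by rw [← hℓe, ht2]; exact Nat.le_ceil _) hsn' hXs c4
  have hlev := level (Pool.Agent.Helper73.TP.s_hga Pool.Agent.Helper46.FS.s_fcl
    Pool.Agent.Helper7.FS.s_spa) (by norm_num) hk hq hn2 z (b := b) (s := s) (N := N) (t0 := t0)
    (t2 := t2) (c := s / 100) (ρ0 := exp (-(32 * C1 * Λ))) (β := (n : ℝ) ^ (-(1 / 4) : ℝ))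
    (η := η) (A := a * (s * ℓ)) (lam := lam) (κ := κ1 * η) (by omega) (by omega) (exp_pos _).le
    ?_ ?_ c3 ?_ (Nat.mul_div_le _ _) hBe ?_ hlam ?_ ?_ hη0 hη1 (by linarith) ?_ ?_ ?_ ?_
  · -- the conclusion
    have hle : (Nat.card {y : Fin q → Alt n // (n : ℝ) ^ (-(η / (16 * log lam) * a * (s : ℝ))) <
        rp (Fin.append z y) (2 * ⌈a / (4 * log lam) * (s : ℝ) * ℓ⌉₊) s} : ℝ) ≤
        Nat.card {y : Fin q → Alt n // exp (-(η / (16 * log lam) * (a * (s * ℓ)))) <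
        rp (Fin.append z y) (2 * ⌊a * (s * ℓ) / (4 * log lam)⌋₊) s} := by
      have h1 : ∀ y : Fin q → Alt n, (n : ℝ) ^ (-(η / (16 * log lam) * a * (s : ℝ))) <
          rp (Fin.append z y) (2 * ⌈a / (4 * log lam) * (s : ℝ) * ℓ⌉₊) s →
          exp (-(η / (16 * log lam) * (a * (s * ℓ)))) <
          rp (Fin.append z y) (2 * ⌊a * (s * ℓ) / (4 * log lam)⌋₊) s := by
        intro y hy
        have h2 : (n : ℝ) ^ (-(η / (16 * log lam) * a * (s : ℝ))) =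
            exp (-(η / (16 * log lam) * (a * (s * ℓ)))) := by
          rw [hne, ← exp_mul]
          ring_nf
        rw [h2] at hy
        refine lt_of_lt_of_le hy (Pool.Agent.Helper3.FS.rp_anti _ (Nat.mul_le_mul_left 2 ?_) s)
        refine (Nat.floor_le_ceil _).trans (Nat.ceil_mono (le_of_eq ?_))
        ring
      exact_mod_cast Nat.card_le_card_of_injective
        (fun y : {y : Fin q → Alt n // (n : ℝ) ^ (-(η / (16 * log lam) * a * (s : ℝ))) <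
          rp (Fin.append z y) (2 * ⌈a / (4 * log lam) * (s : ℝ) * ℓ⌉₊) s} =>
          (⟨y.1, h1 y.1 y.2⟩ : {y : Fin q → Alt n // exp (-(η / (16 * log lam) * (a * (s * ℓ)))) <
          rp (Fin.append z y) (2 * ⌊a * (s * ℓ) / (4 * log lam)⌋₊) s}))
        (fun u v h => Subtype.ext (congrArg (fun w => w.1) h))
    refine (hle.trans hlev).trans ?_
    apply mul_le_mul_of_nonneg_right _ (by positivity)
    have h2 : (2 : ℝ) ^ q ≤ exp q := by
      have h4 : (2 : ℝ) ≤ exp 1 := by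
        have := add_one_le_exp (1 : ℝ)
        linarith
      calc (2 : ℝ) ^ q ≤ (exp 1) ^ q := pow_le_pow_left₀ (by norm_num) h4 q
        _ = exp q := by rw [← exp_nat_mul, mul_one]
    have h3 : (n : ℝ) ^ (-1 : ℝ) = exp (-ℓ) := by
      rw [hne, ← exp_mul]
      ring_nf
    rw [h3]
    calc (2 : ℝ) ^ q * exp (-(a * (s * ℓ))) ≤ exp q * exp (-(a * (s * ℓ))) :=
          mul_le_mul_of_nonneg_right h2 (exp_pos _).le
      _ = exp (q - a * (s * ℓ)) := by rw [← exp_add]; ring_nf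
      _ ≤ exp (-ℓ) := by
          apply exp_le_exp.2
          rw [div_le_iff₀ ha0] at m6
          have h5 : (1 + q) * ℓ ≤ a * (s * ℓ) := by
            calc (1 + q) * ℓ ≤ M' * a * ℓ := mul_le_mul_of_nonneg_right m6 (by linarith)
              _ ≤ s * a * ℓ := by
                  apply mul_le_mul_of_nonneg_right _ (by linarith)
                  exact mul_le_mul_of_nonneg_right c1 ha0.le
              _ = _ := by ring
          have h6 : (0 : ℝ) ≤ q := Nat.cast_nonneg _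
          have h7 : (q : ℝ) ≤ q * ℓ := le_mul_of_one_le_right h6 (by linarith)
          linarith
  · -- `hret`
    intro x
    have h1 := hret x t0 ?_
    · refine h1.trans (le_of_eq ?_)
      rw [hΛ, hsb]
      ring_nf
    · rw [ht0, hΛ, hsb]
      refine le_trans (le_of_eq ?_) (Nat.le_ceil _)
      ring
  · -- `hρ1`
    have h2 : (2 : ℝ) ^ s ≤ exp s := by
      have h4 : (2 : ℝ) ≤ exp 1 := by
        have := add_one_le_exp (1 : ℝ)
        linarith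
      calc (2 : ℝ) ^ s ≤ (exp 1) ^ s := pow_le_pow_left₀ (by norm_num) h4 s
        _ = exp s := by rw [← exp_nat_mul, mul_one]
    calc (2 : ℝ) ^ s * exp (-(32 * C1 * Λ)) ≤ exp s * exp (-(32 * C1 * Λ)) :=
          mul_le_mul_of_nonneg_right h2 (exp_pos _).le
      _ = exp (s - 32 * C1 * Λ) := by rw [← exp_add]; ring_nf
      _ ≤ exp 0 := exp_le_exp.2 (by linarith [mul_pos hC1 hΛ0])
      _ = 1 := exp_zero
  · -- the size
    have h1 : 4 * s * N + 8 * N ≤ 12 * (s * N) := by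
      have : N ≤ s * N := Nat.le_mul_of_pos_left N hsn
      have e1 : 4 * s * N = 4 * (s * N) := by ring
      omega
    have h2 : 1000 * s * N = 1000 * (s * N) := by ring
    omega
  · rw [ht2, ht0]
    exact Nat.ceil_mono c6
  · rw [hκ1]
    ring
  · -- `β`
    have h1 : (n : ℝ) ^ (-(1 / 4) : ℝ) = exp (-(ℓ / 4)) := by
      rw [hne, ← exp_mul]
      ring_nf
    rw [h1]
    exact beta_lt (by positivity) (by linarith) (by linarith) hε hℓ ht2'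
  · -- the time of the schedule
    refine le_trans ?_ c7
    have h1 : ((t0 : ℝ) + 1) * N ≤ (CS * Λ + 2) * N :=
      mul_le_mul_of_nonneg_right (by linarith) (Nat.cast_nonneg _)
    exact mul_le_mul_of_nonneg_left h1 (by positivity)
  · rw [div_le_iff₀ hη0]
    rw [div_le_iff₀ (by positivity)] at m3
    calc 16 * log lam ≤ M' * (η * a) := m3
      _ ≤ s * ℓ * (η * a) := mul_le_mul_of_nonneg_right (c1.trans hsℓ) (by positivity)
      _ = _ := by ring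
  · rw [div_le_iff₀ ha0] at m4
    calc (64 : ℝ) ≤ M' * a := m4
      _ ≤ s * ℓ * a := mul_le_mul_of_nonneg_right (c1.trans hsℓ) ha0.le
      _ = _ := by ring
  · exact c8

end Pool.Agent.Helper1.TP
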