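import Pool.Agent.Helper27.FS.MidLevel
import Pool.Agent.Helper38.FS.Middle
import Pool.Agent.Helper73.TP.TopPart2

/-!
# Project FS (MP_75608d_al), middle levels: from one level to all levels
-/

set_option autoImplicit false

namespace Pool.Agent.Helper1.TP

open Filter Topology Real
open Pool.Agent.Helper3.AK (Alt lazyLaw TupleGap GroupGap EUT main_uniform)
open Pool.Agent.Helper38.FS (rp Win S_MID s_mid)
open Pool.Agent.Helper3.FS (S_PART S_EXC part_of_exc part_union part_range S_END end_of_part)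

theorem whp_and {X : ℕ → Type} [∀ n, Finite (X n)] [∀ n, Nonempty (X n)] {P Q : ∀ n, X n → Prop}
    (hP : Tendsto (fun n => (Nat.card {x : X n // P n x} : ℝ) / Nat.card (X n)) atTop (𝓝 1))
    (hQ : Tendsto (fun n => (Nat.card {x : X n // Q n x} : ℝ) / Nat.card (X n)) atTop (𝓝 1)) :
    Tendsto (fun n => (Nat.card {x : X n // P n x ∧ Q n x} : ℝ) / Nat.card (X n)) atTop (𝓝 1) := by
  classical
  have h1 := (hP.add hQ).sub_const 1
  have h2 : (1 : ℝ) + 1 - 1 = 1 := by norm_num
  rw [h2] at h1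
  refine tendsto_of_tendsto_of_tendsto_of_le_of_le h1 tendsto_const_nhds ?_ ?_
  · intro n
    have : Fintype (X n) := Fintype.ofFinite _
    have hX : (0 : ℝ) < Nat.card (X n) := by exact_mod_cast Nat.card_pos
    show (Nat.card {x : X n // P n x} : ℝ) / Nat.card (X n) +
      (Nat.card {x : X n // Q n x} : ℝ) / Nat.card (X n) - 1 ≤ _
    rw [← add_div, ← sub_nonneg]
    have h3 : (Nat.card {x : X n // P n x} : ℝ) + Nat.card {x : X n // Q n x} ≤
        Nat.card (X n) + Nat.card {x : X n // P n x ∧ Q n x} := by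
      rw [Nat.card_eq_fintype_card, Nat.card_eq_fintype_card, Nat.card_eq_fintype_card,
        Nat.card_eq_fintype_card, Fintype.card_subtype, Fintype.card_subtype,
        Fintype.card_subtype]
      have h4 := Finset.card_union_add_card_inter (Finset.univ.filter fun x => P n x)
        (Finset.univ.filter fun x => Q n x)
      have h5 : ((Finset.univ.filter fun x => P n x) ∩ (Finset.univ.filter fun x => Q n x)) =
          Finset.univ.filter fun x => P n x ∧ Q n x := by
        ext x
        simp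
      rw [h5] at h4
      have h6 := Finset.card_le_univ ((Finset.univ.filter fun x => P n x) ∪
        (Finset.univ.filter fun x => Q n x))
      have h7 : (Finset.univ.filter fun x => P n x).card + (Finset.univ.filter fun x => Q n x).card ≤
          Fintype.card (X n) + (Finset.univ.filter fun x => P n x ∧ Q n x).card := by omega
      exact_mod_cast h7
    have h4 : (Nat.card {x : X n // P n x ∧ Q n x} : ℝ) / Nat.card (X n) -
        ((Nat.card {x : X n // P n x} + Nat.card {x : X n // Q n x} : ℝ) / Nat.card (X n) - 1) =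
        ((Nat.card (X n) + Nat.card {x : X n // P n x ∧ Q n x} : ℝ) -
          (Nat.card {x : X n // P n x} + Nat.card {x : X n // Q n x})) / Nat.card (X n) := by
      field_simp
      ring
    rw [h4]
    exact div_nonneg (by linarith) hX.le
  · intro n
    apply div_le_one_of_le₀ _ (Nat.cast_nonneg _)
    exact Nat.cast_le.2 (Nat.card_le_card_of_injective
      (fun x : {x : X n // P n x ∧ Q n x} => x.1) Subtype.val_injective)

/-- **the middle part** -/
theorem mid_part : S_PART (fun n => (n : ℝ) ^ (93 / 100 : ℝ))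
    (fun n => (n : ℝ) / (10000 * Real.log n)) := by
  obtain ⟨k₀, hk₀⟩ := s_mid
  obtain ⟨k, hk⟩ : ∃ k, k = max k₀ 3 := ⟨_, rfl⟩
  have hk1 : k₀ ≤ k := by rw [hk]; exact le_max_left _ _
  have hk3 : 3 ≤ k := by rw [hk]; exact le_max_right _ _
  obtain ⟨ε1, hε1, hmid⟩ := hk₀ k hk1
  obtain ⟨ε0, hε0, hE⟩ := main_uniform (1 / 2) (by norm_num)
  have hkexp : (1 / 2 : ℝ) < 1 - 2 / 3 / 2 ^ (k - 2) := by
    have h1 : (2 : ℝ) ^ 1 ≤ 2 ^ (k - 2) := pow_le_pow_right₀ (by norm_num) (by omega)
    have h2 : (2 / 3 : ℝ) / 2 ^ (k - 2) ≤ 2 / 3 / 2 ^ 1 :=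
      div_le_div_of_nonneg_left (by norm_num) (by norm_num) h1
    norm_num at h2 ⊢
    linarith
  obtain ⟨g, hg⟩ : ∃ g, g = min ε0 1 := ⟨_, rfl⟩
  have hg0 : 0 < g := by rw [hg]; exact lt_min hε0 one_pos
  have hg1 : g ≤ 1 := by rw [hg]; exact min_le_right _ _
  have hEk : EUT k (1 / 2) g := by
    rw [hg]
    exact (hE k (by omega) hkexp).mono (min_le_left _ _)
  obtain ⟨q, C, ξ, n0, hC, hξ, hlev⟩ := Pool.Agent.Helper27.FS.mid_level k (by omega) (ε := ε1)
    (A := 1) (ε1 := 10000) (g := g) hε1 one_pos (by norm_num) hg0 (by linarith)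
  apply part_of_exc
  refine ⟨k, q, C, ξ, fun n => (n : ℝ) ^ (-1 : ℝ), by omega, hC, hξ,
    Pool.Agent.Helper73.TP.delta_tendsto, ?_⟩
  have hboth := whp_and (X := fun n => Fin k → Alt n) hmid hEk
  refine tendsto_of_tendsto_of_tendsto_of_le_of_le' hboth tendsto_const_nhds ?_ ?_
  · filter_upwards [eventually_ge_atTop n0, eventually_ge_atTop 4,
      Pool.Agent.Helper73.TP.log_le_rpow_ev (4 / g + 1) (1 / 2) (by norm_num),
      Pool.Agent.Helper73.TP.log_le_rpow_ev (1 / ξ) (1 / 2) (by norm_num),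
      (tendsto_log_atTop.comp tendsto_natCast_atTop_atTop).eventually_ge_atTop 1]
      with n hn0 hn4 hlog1 hlog2 hlog3
    have hn1 : (1 : ℝ) ≤ n := by
      have : 1 ≤ n := by omega
      exact_mod_cast this
    have hn4' : (4 : ℝ) ≤ n := by exact_mod_cast hn4
    have hnpos : (0 : ℝ) < n := by linarith
    have hlog3' : 1 ≤ Real.log n := hlog3
    have hlogpos : 0 < Real.log n := by linarith
    have h2n : (2 : ℝ) ≤ (n : ℝ) ^ (1 / 2 : ℝ) := by
      have h3 : (4 : ℝ) ^ (1 / 2 : ℝ) ≤ (n : ℝ) ^ (1 / 2 : ℝ) :=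
        Real.rpow_le_rpow (by norm_num) hn4' (by norm_num)
      have h4 : (4 : ℝ) ^ (1 / 2 : ℝ) = 2 := by
        rw [show (4 : ℝ) = 2 ^ (2 : ℝ) by norm_num, ← Real.rpow_mul (by norm_num)]
        norm_num
      rwa [h4] at h3
    refine Pool.Agent.Helper3.FS.frac_mono _ _ ?_
    rintro z ⟨hz1, hz2⟩ j hj1 hj2 hj3
    have hs0 : (0 : ℝ) < (2 : ℝ) ^ j := by positivity
    have hsn : (n : ℝ) ^ (1 / 2 : ℝ) ≤ (2 : ℝ) ^ j :=
      (Real.rpow_le_rpow_of_exponent_le hn1 (by norm_num)).trans hj1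
    have hcast : (((2 : ℕ) ^ j : ℕ) : ℝ) = (2 : ℝ) ^ j := by push_cast; rfl
    have hup : 10000 * Real.log n * (2 : ℝ) ^ j ≤ n := by
      rw [le_div_iff₀ (by positivity)] at hj2
      linarith
    have hwin : Win 10000 0.08 n (2 ^ j) := by
      refine ⟨Nat.one_le_two_pow, ?_, ?_⟩
      · rw [hcast, le_div_iff₀ hs0]
        exact hup
      · rw [hcast, div_le_iff₀ hs0]
        calc (n : ℝ) = (n : ℝ) ^ (0.08 : ℝ) * (n : ℝ) ^ (0.92 : ℝ) := by
              rw [← Real.rpow_add hnpos]
              norm_num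
          _ ≤ (n : ℝ) ^ (0.08 : ℝ) * (2 : ℝ) ^ j := by
              apply mul_le_mul_of_nonneg_left _ (by positivity)
              exact (Real.rpow_le_rpow_of_exponent_le hn1 (by norm_num)).trans hj1
    have hrp := hz1 (2 ^ j) hwin
    have hrp2 : rp z (2 * 2 ^ j) (2 ^ j) ≤ Real.exp (-(ε1 * ((2 ^ j : ℕ) : ℝ))) :=
      (Pool.Agent.Helper3.FS.rp_anti z (by omega) (2 ^ j)).trans hrp
    have hgap : TupleGap z 2 g := (hz2 2 (by exact_mod_cast h2n)).2
    have h5 := hlev n hn0 z hgap (2 ^ j) (2 ^ j) (by rw [hcast]; exact hsn)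
      (by rw [hcast]; exact hup) ?_ (by rw [one_mul]) hrp2
    · rw [hcast] at h5
      have e1 : (-(ξ * (2 : ℝ) ^ j)) = -(ξ * 2 ^ j) := rfl
      have h6 : (Nat.card {y : Fin q → Alt n // (n : ℝ) ^ (-(ξ * 2 ^ j)) <
          rp (Fin.append z y) (2 * ⌈C * 2 ^ j * Real.log n⌉₊) (2 ^ j)} : ℝ) ≤
          Real.exp (-(ξ * ((2 : ℝ) ^ j * Real.log n))) * Fintype.card (Fin q → Alt n) := by
        refine le_trans (le_of_eq ?_) h5
        rw [mul_assoc C]
      refine h6.trans ?_
      have h7 : (Fintype.card (Fin q → Alt n) : ℝ) = (Fintype.card (Alt n) : ℝ) ^ q := by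
        rw [Fintype.card_fun, Fintype.card_fin]
        push_cast
        rfl
      rw [h7]
      apply mul_le_mul_of_nonneg_right _ (by positivity)
      have h8 : (n : ℝ) ^ (-1 : ℝ) = Real.exp (-(Real.log n)) := by
        rw [Real.rpow_def_of_pos hnpos]
        ring_nf
      rw [h8]
      apply Real.exp_le_exp.2
      have h9 : 1 ≤ ξ * (2 : ℝ) ^ j := by
        have h10 : 1 / ξ ≤ (2 : ℝ) ^ j := by
          have h11 : 1 / ξ ≤ 1 / ξ * Real.log n := le_mul_of_one_le_right (by positivity) hlog3'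
          linarith
        rw [div_le_iff₀ hξ] at h10
        linarith
      have h10 : Real.log n ≤ ξ * (2 : ℝ) ^ j * Real.log n := le_mul_of_one_le_left hlogpos.le h9
      linarith
    · rw [hcast]
      refine le_trans ?_ hsn
      refine le_trans ?_ hlog1
      rw [add_mul, one_mul]
      linarith
  · filter_upwards with n
    apply div_le_one_of_le₀ _ (Nat.cast_nonneg _)
    exact_mod_cast Nat.card_le_card_of_injective _ Subtype.val_injective

/-- **the full statement** -/
theorem s_end : S_END := by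
  obtain ⟨C2, hC2, htop⟩ := Pool.Agent.Helper73.TP.top_part' 10000 (by norm_num)
  refine end_of_part (β := 93 / 100) (κ := 1 / C2) (by norm_num) (by positivity) ?_
  refine part_union mid_part (part_range htop ?_ ?_)
  · filter_upwards with n
    exact le_rfl
  · filter_upwards with n
    rw [div_mul_eq_mul_div, one_mul]

end Pool.Agent.Helper1.TP
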