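import Mathlib

/-!
# Project FS (MP_75608d_al), top levels: numbers
-/

set_option autoImplicit false

namespace Pool.Agent.Helper1.TP

open Real

/-- `N = n / (1000 s)` (natural division) -/
theorem N_bounds {n s N : ℕ} (hN : N = n / (1000 * s)) (hs : 0 < s) (hN1 : 1 ≤ N) :
    (N : ℝ) * (1000 * s) ≤ n ∧ (n : ℝ) ≤ 2 * N * (1000 * s) := by
  have h0 : 0 < 1000 * s := by omega
  have h1 : N * (1000 * s) ≤ n := by rw [hN]; exact Nat.div_mul_le_self _ _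
  have h2 : n < (N + 1) * (1000 * s) := by
    rw [hN]
    have := Nat.lt_div_mul_add h0 (a := n)
    nlinarith
  have h3 : (n : ℝ) < ((N : ℝ) + 1) * (1000 * s) := by exact_mod_cast h2
  have h4 : (1 : ℝ) ≤ N := by exact_mod_cast hN1
  have h5 : (0 : ℝ) < s := by exact_mod_cast hs
  refine ⟨by exact_mod_cast h1, ?_⟩
  nlinarith

/-- first part of `r`: `2 ^ N (2 ^ s ρ0) ^ (N0 / 2)` -/
theorem r_first {n s N : ℕ} {C1 K ℓ Λ ρ0 : ℝ} (hC1 : 0 < C1) (hK : K = 32 * C1)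
    (hN : N = n / (1000 * s)) (hs : 0 < s) (hN8 : 8 ≤ N) (hℓ : 0 < ℓ)
    (hlow : (n : ℝ) ≤ C1 * ℓ * s) (hΛ : Λ = ((s : ℝ) / 4) ^ 2 / n * ℓ) (hρ : ρ0 = exp (-(K * Λ)))
    (hbig : (N : ℝ) ≤ C1 / 10 ^ 6 * (s * ℓ)) :
    (2 : ℝ) ^ N * ((2 : ℝ) ^ s * ρ0) ^ (N / 2 / 2) ≤ exp (-(C1 / 10 ^ 5 * (s * ℓ))) := by
  obtain ⟨h1, h2⟩ := N_bounds hN hs (by omega)
  have hs' : (0 : ℝ) < s := by exact_mod_cast hs
  have hN' : (8 : ℝ) ≤ N := by exact_mod_cast hN8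
  have hn' : (0 : ℝ) < n := by nlinarith
  have hΛ1 : (s : ℝ) ≤ 16 * C1 * Λ := by
    rw [hΛ]
    have : 16 * C1 * (((s : ℝ) / 4) ^ 2 / n * ℓ) = s * (C1 * ℓ * s) / n := by
      field_simp
      ring
    rw [this, le_div_iff₀ hn']
    exact mul_le_mul_of_nonneg_left hlow hs'.le
  have hbase : (2 : ℝ) ^ s * ρ0 ≤ exp (-(16 * C1 * Λ)) := by
    have h3 : (2 : ℝ) ^ s ≤ exp s := by
      have h4 : (2 : ℝ) ≤ exp 1 := by
        have := add_one_le_exp (1 : ℝ)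
        linarith
      calc (2 : ℝ) ^ s ≤ (exp 1) ^ s := pow_le_pow_left₀ (by norm_num) h4 s
        _ = exp s := by rw [← exp_nat_mul, mul_one]
    rw [hρ]
    calc (2 : ℝ) ^ s * exp (-(K * Λ)) ≤ exp s * exp (-(K * Λ)) :=
          mul_le_mul_of_nonneg_right h3 (exp_pos _).le
      _ = exp (s - K * Λ) := by rw [← exp_add]; ring_nf
      _ ≤ _ := by
          apply exp_le_exp.2
          rw [hK]
          linarith
  have hbase0 : 0 ≤ (2 : ℝ) ^ s * ρ0 := by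
    rw [hρ]
    positivity
  have hΛ0 : 0 < Λ := by
    rw [hΛ]
    positivity
  have h5 : (N : ℝ) / 8 ≤ ((N / 2 / 2 : ℕ) : ℝ) := by
    have : N ≤ 8 * (N / 2 / 2) := by omega
    have h6 : (N : ℝ) ≤ 8 * ((N / 2 / 2 : ℕ) : ℝ) := by exact_mod_cast this
    linarith
  have h7 : ((2 : ℝ) ^ s * ρ0) ^ (N / 2 / 2) ≤ exp (-(16 * C1 * Λ * (N / 8))) := by
    calc ((2 : ℝ) ^ s * ρ0) ^ (N / 2 / 2) ≤ (exp (-(16 * C1 * Λ))) ^ (N / 2 / 2) :=
          pow_le_pow_left₀ hbase0 hbase _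
      _ = exp (-(16 * C1 * Λ * ((N / 2 / 2 : ℕ) : ℝ))) := by
          rw [← exp_nat_mul]
          ring_nf
      _ ≤ _ := by
          apply exp_le_exp.2
          have : 0 ≤ 16 * C1 * Λ := by positivity
          have := mul_le_mul_of_nonneg_left h5 this
          linarith
  have h8 : (2 : ℝ) ^ N ≤ exp N := by
    have h4 : (2 : ℝ) ≤ exp 1 := by
      have := add_one_le_exp (1 : ℝ)
      linarith
    calc (2 : ℝ) ^ N ≤ (exp 1) ^ N := pow_le_pow_left₀ (by norm_num) h4 N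
      _ = exp N := by rw [← exp_nat_mul, mul_one]
  have h9 : (s : ℝ) * ℓ ≤ 32000 * (Λ * N) := by
    rw [hΛ]
    have : 32000 * (((s : ℝ) / 4) ^ 2 / n * ℓ * N) = s * ℓ * (2 * N * (1000 * s)) / n := by
      field_simp
      ring
    rw [this, le_div_iff₀ hn']
    exact mul_le_mul_of_nonneg_left h2 (by positivity)
  calc (2 : ℝ) ^ N * ((2 : ℝ) ^ s * ρ0) ^ (N / 2 / 2) ≤
        exp N * exp (-(16 * C1 * Λ * (N / 8))) :=
        mul_le_mul h8 h7 (pow_nonneg hbase0 _) (exp_pos _).le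
    _ = exp (N - 2 * C1 * (Λ * N)) := by rw [← exp_add]; ring_nf
    _ ≤ _ := by
        apply exp_le_exp.2
        have h10 : C1 * (s * ℓ) ≤ C1 * (32000 * (Λ * N)) := mul_le_mul_of_nonneg_left h9 hC1.le
        have h11 : 0 ≤ C1 * (s * ℓ) := by positivity
        nlinarith

/-- second part of `r`: `4 ^ s (CF N ^ 3 / n) ^ (J / 3)`, `J = s / 100` -/
theorem r_second {n s N : ℕ} {CF ℓ : ℝ} (hCF : 0 ≤ CF) (hs : 600 ≤ s) (hℓ : ℓ = log n)
    (hn : 0 < n) (hsm : CF * (N : ℝ) ^ 3 / n ≤ exp (-(ℓ / 2))) (hbig : 4800 ≤ ℓ) :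
    (4 : ℝ) ^ s * (CF * (N : ℝ) ^ 3 / n) ^ (s / 100 / 3) ≤ exp (-(1 / 4800 * (s * ℓ))) := by
  have hs' : (600 : ℝ) ≤ s := by exact_mod_cast hs
  have hn' : (0 : ℝ) < n := by exact_mod_cast hn
  have h0 : 0 ≤ CF * (N : ℝ) ^ 3 / n := by positivity
  have h1 : (4 : ℝ) ^ s ≤ exp (2 * s) := by
    have h4 : (2 : ℝ) ≤ exp 1 := by
      have := add_one_le_exp (1 : ℝ)
      linarith
    have h5 : (4 : ℝ) ≤ exp 2 := by
      have : exp 2 = exp 1 * exp 1 := by rw [← exp_add]; norm_num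
      rw [this]
      nlinarith
    calc (4 : ℝ) ^ s ≤ (exp 2) ^ s := pow_le_pow_left₀ (by norm_num) h5 s
      _ = exp (2 * s) := by rw [← exp_nat_mul]; ring_nf
  have h2 : (s : ℝ) / 600 ≤ ((s / 100 / 3 : ℕ) : ℝ) := by
    have : s ≤ 600 * (s / 100 / 3) := by omega
    have h6 : (s : ℝ) ≤ 600 * ((s / 100 / 3 : ℕ) : ℝ) := by exact_mod_cast this
    linarith
  have h3 : (CF * (N : ℝ) ^ 3 / n) ^ (s / 100 / 3) ≤ exp (-(ℓ / 2 * (s / 600))) := by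
    calc (CF * (N : ℝ) ^ 3 / n) ^ (s / 100 / 3) ≤ (exp (-(ℓ / 2))) ^ (s / 100 / 3) :=
          pow_le_pow_left₀ h0 hsm _
      _ = exp (-(ℓ / 2 * ((s / 100 / 3 : ℕ) : ℝ))) := by
          rw [← exp_nat_mul]
          ring_nf
      _ ≤ _ := by
          apply exp_le_exp.2
          have : 0 ≤ ℓ / 2 := by linarith
          have := mul_le_mul_of_nonneg_left h2 this
          linarith
  calc (4 : ℝ) ^ s * (CF * (N : ℝ) ^ 3 / n) ^ (s / 100 / 3) ≤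
        exp (2 * s) * exp (-(ℓ / 2 * (s / 600))) :=
        mul_le_mul h1 h3 (pow_nonneg h0 _) (exp_pos _).le
    _ = exp (2 * s - ℓ / 2 * (s / 600)) := by rw [← exp_add]; ring_nf
    _ ≤ _ := by
        apply exp_le_exp.2
        nlinarith

end Pool.Agent.Helper1.TP
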